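import Mathlib

/-! The Denjoy-Carleman theorem (Bang's argument) and Carleman's inequality. -/

set_option autoImplicit false

open Filter Topology

namespace Pool.Agent.U507.FW

section Bang

variable {f : ℕ → ℝ → ℝ} {M : ℕ → ℝ}

/-- Bang's condition at a point -/
def Bd (f : ℕ → ℝ → ℝ) (M : ℕ → ℝ) (β x : ℝ) : Prop := ∀ n, |f n x| ≤ β * Real.exp n * M n

/-- ratio monotonicity of a log-convex sequence -/
lemma ratio_le (hM : ∀ n, 0 < M n) (hlc : ∀ n, M (n + 1) ^ 2 ≤ M n * M (n + 2)) {n N : ℕ}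
    (h : n ≤ N) : M (n + 1) * M N ≤ M n * M (N + 1) := by
  induction N, h using Nat.le_induction with
  | base => rw [mul_comm]
  | succ N hN ih =>
    have h1 := hlc N
    have h2 := hM N
    have h3 := hM (N + 1)
    have h4 := hM n
    have h5 : M (n + 1) * M N * M (N + 1) ^ 2 ≤ M n * M (N + 1) * (M N * M (N + 2)) :=
      mul_le_mul ih h1 (by positivity) (by have := hM (N + 1); positivity)
    have h6 : (M (n + 1) * M (N + 1)) * (M N * M (N + 1)) ≤
        (M n * M (N + 1 + 1)) * (M N * M (N + 1)) := by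
      have e : N + 1 + 1 = N + 2 := rfl
      rw [e]
      nlinarith
    exact le_of_mul_le_mul_right h6 (by positivity)

lemma bang_up (hM : ∀ n, 0 < M n) (hlc : ∀ n, M (n + 1) ^ 2 ≤ M n * M (n + 2))
    (hd : ∀ n x, HasDerivAt (f n) (f (n + 1) x) x) {N : ℕ} {x h β : ℝ} (hβ : 0 < β)
    (hx : Bd f M β x) (hN : ∀ y, |f (N + 1) y| ≤ β * Real.exp (N + 1 : ℕ) * M (N + 1)) :
    ∀ k ≤ N + 1, ∀ t ∈ Set.Icc (0 : ℝ) h, |f (N + 1 - k) (x + t)| ≤
      β * Real.exp (N + 1 - k : ℕ) * M (N + 1 - k) *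
        Real.exp (Real.exp 1 * (M (N + 1) / M N) * t) := by
  have hr : 0 < M (N + 1) / M N := div_pos (hM _) (hM _)
  intro k
  induction k with
  | zero =>
    intro _ t ht
    rw [Nat.sub_zero]
    refine (hN _).trans ?_
    have h1 : 0 < β * Real.exp (N + 1 : ℕ) * M (N + 1) := by
      have := hM (N + 1)
      positivity
    refine le_mul_of_one_le_right h1.le (Real.one_le_exp ?_)
    have := ht.1
    positivity
  | succ k ih =>
    intro hk t ht
    obtain ⟨n, hn⟩ : ∃ n, n = N + 1 - (k + 1) := ⟨_, rfl⟩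
    have hn1 : N + 1 - k = n + 1 := by omega
    rw [hn1] at ih
    rw [← hn]
    have ih := ih (by omega)
    set lam : ℝ := Real.exp 1 * (M (N + 1) / M N) with hlam
    have key := image_norm_le_of_norm_deriv_right_le_deriv_boundary
      (f := fun t => f n (x + t)) (f' := fun t => f (n + 1) (x + t)) (a := 0) (b := h)
      (B := fun t => β * Real.exp (n : ℕ) * M n * Real.exp (lam * t))
      (B' := fun t => β * Real.exp (n : ℕ) * M n * (Real.exp (lam * t) * lam)) ?_ ?_ ?_ ?_ ?_
    · have := key ht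
      rw [Real.norm_eq_abs] at this
      exact this
    · exact (continuous_iff_continuousAt.2 fun t =>
        ((hd n (x + t)).comp_const_add x t).continuousAt).continuousOn
    · intro t _
      exact ((hd n (x + t)).comp_const_add x t).hasDerivWithinAt
    · simp only [add_zero, mul_zero, Real.exp_zero, mul_one, Real.norm_eq_abs]
      exact hx n
    · intro t
      have h1 : HasDerivAt (fun t : ℝ => lam * t) lam t := by
        simpa using (hasDerivAt_id t).const_mul lam
      exact (h1.exp).const_mul _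
    · intro t ht
      rw [Real.norm_eq_abs]
      refine (ih t ⟨ht.1, ht.2.le⟩).trans ?_
      have h1 : M (n + 1) ≤ M n * (M (N + 1) / M N) := by
        rw [← mul_div_assoc, le_div_iff₀ (hM N)]
        exact ratio_le hM hlc (by omega)
      have h2 : Real.exp ((n + 1 : ℕ) : ℝ) = Real.exp n * Real.exp 1 := by
        rw [← Real.exp_add]
        push_cast
        rfl
      rw [h2]
      have h3 : 0 < Real.exp (lam * t) := Real.exp_pos _
      calc β * (Real.exp n * Real.exp 1) * M (n + 1) * Real.exp (lam * t) =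
            (β * Real.exp n * Real.exp 1 * Real.exp (lam * t)) * M (n + 1) := by ring
        _ ≤ (β * Real.exp n * Real.exp 1 * Real.exp (lam * t)) * (M n * (M (N + 1) / M N)) :=
            mul_le_mul_of_nonneg_left h1 (by positivity)
        _ = β * Real.exp n * M n * (Real.exp (lam * t) * lam) := by
            rw [hlam]
            ring

/-- one step of Bang's argument -/
lemma bang_step (hM : ∀ n, 0 < M n) (hlc : ∀ n, M (n + 1) ^ 2 ≤ M n * M (n + 2))
    (hd : ∀ n x, HasDerivAt (f n) (f (n + 1) x) x) (hb : ∀ n x, |f n x| ≤ M n) {N : ℕ}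
    {x t : ℝ} (hx : Bd f M (Real.exp (-((N + 1 : ℕ) : ℝ))) x) (ht0 : 0 ≤ t)
    (ht : t ≤ (Real.exp 1)⁻¹ * (M N / M (N + 1))) : Bd f M (Real.exp (-(N : ℝ))) (x + t) := by
  have he : Real.exp (-(N : ℝ)) = Real.exp (-((N + 1 : ℕ) : ℝ)) * Real.exp 1 := by
    rw [← Real.exp_add]
    push_cast
    ring_nf
  intro n
  rcases le_or_gt n (N + 1) with hn | hn
  · have h1 := bang_up hM hlc hd (h := t) (β := Real.exp (-((N + 1 : ℕ) : ℝ))) (Real.exp_pos _)
      hx (fun y => by
        rw [← Real.exp_add, neg_add_cancel, Real.exp_zero, one_mul]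
        exact hb _ _) (N + 1 - n) (by omega) t ⟨ht0, le_rfl⟩
    have e1 : N + 1 - (N + 1 - n) = n := by omega
    rw [e1] at h1
    refine h1.trans ?_
    rw [he]
    have h2 : Real.exp 1 * (M (N + 1) / M N) * t ≤ 1 := by
      have h3 : 0 < M N := hM N
      have h4 : 0 < M (N + 1) := hM (N + 1)
      calc Real.exp 1 * (M (N + 1) / M N) * t ≤
            Real.exp 1 * (M (N + 1) / M N) * ((Real.exp 1)⁻¹ * (M N / M (N + 1))) :=
            mul_le_mul_of_nonneg_left ht (by positivity)
        _ = 1 := by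
            have := Real.exp_pos 1
            field_simp
    have h5 := Real.exp_le_exp.2 h2
    have h6 : 0 < Real.exp (-((N + 1 : ℕ) : ℝ)) * Real.exp n * M n := by
      have := hM n
      positivity
    calc _ ≤ Real.exp (-((N + 1 : ℕ) : ℝ)) * Real.exp n * M n * Real.exp 1 :=
          mul_le_mul_of_nonneg_left h5 h6.le
      _ = _ := by ring
  · refine (hb n _).trans ?_
    rw [← Real.exp_add]
    have h1 : (1 : ℝ) ≤ Real.exp (-(N : ℝ) + n) := by
      refine Real.one_le_exp ?_
      have : (N : ℝ) + 1 < n := by exact_mod_cast hn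
      linarith
    have := hM n
    nlinarith

/-- **the Denjoy-Carleman theorem**: a function all of whose derivatives vanish at `a` and satisfy
`|f^(n)| ≤ M n` with `M` log-convex and `∑ M n / M (n+1) = ∞` vanishes to the right of `a`. -/
theorem denjoy_carleman (hM : ∀ n, 0 < M n) (hlc : ∀ n, M (n + 1) ^ 2 ≤ M n * M (n + 2))
    (hdiv : ¬ Summable fun n => M n / M (n + 1))
    (hd : ∀ n x, HasDerivAt (f n) (f (n + 1) x) x) (hb : ∀ n x, |f n x| ≤ M n) {a : ℝ}
    (ha : ∀ n, f n a = 0) {x : ℝ} (hx : a ≤ x) : f 0 x = 0 := by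
  have hpos : ∀ n, 0 < M n / M (n + 1) := fun n => div_pos (hM _) (hM _)
  -- induction
  have key : ∀ m N : ℕ, ∀ x, a ≤ x →
      x ≤ a + (Real.exp 1)⁻¹ * ∑ k ∈ Finset.range m, M (k + N) / M (k + N + 1) →
      Bd f M (Real.exp (-(N : ℝ))) x := by
    intro m
    induction m with
    | zero =>
      intro N x hax hx
      have hxa : x = a := by
        simp at hx
        linarith
      subst hxa
      intro n
      rw [ha n, abs_zero]
      have := hM n
      positivity
    | succ m ih =>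
      intro N x hax hx
      rw [Finset.sum_range_succ'] at hx
      set y := max a (x - (Real.exp 1)⁻¹ * (M N / M (N + 1))) with hy
      have h1 : Bd f M (Real.exp (-((N + 1 : ℕ) : ℝ))) y := by
        refine ih (N + 1) y (le_max_left _ _) ?_
        have e : ∀ k ∈ Finset.range m, M (k + 1 + N) / M (k + 1 + N + 1) =
            M (k + (N + 1)) / M (k + (N + 1) + 1) := by
          intro k _
          have : k + 1 + N = k + (N + 1) := by ring
          rw [this]
        rw [Finset.sum_congr rfl e] at hx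
        rw [hy, max_le_iff]
        constructor
        · have : 0 ≤ ∑ k ∈ Finset.range m, M (k + (N + 1)) / M (k + (N + 1) + 1) :=
            Finset.sum_nonneg fun k _ => (hpos _).le
          have h2 : 0 < (Real.exp 1)⁻¹ := by positivity
          nlinarith
        · simp only [zero_add] at hx
          linarith
      have hyx : y ≤ x := by
        rw [hy, max_le_iff]
        refine ⟨hax, ?_⟩
        have := hpos N
        have h2 : 0 < (Real.exp 1)⁻¹ * (M N / M (N + 1)) := by positivity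
        linarith
      have h2 := bang_step hM hlc hd hb h1 (t := x - y) (by linarith) (by
        have := le_max_right a (x - (Real.exp 1)⁻¹ * (M N / M (N + 1)))
        linarith)
      rwa [add_sub_cancel] at h2
  have hall : ∀ N : ℕ, |f 0 x| ≤ Real.exp (-(N : ℝ)) * M 0 := by
    intro N
    have h1 : ¬ Summable fun k => M (k + N) / M (k + N + 1) := by
      intro h
      exact hdiv ((summable_nat_add_iff (f := fun n => M n / M (n + 1)) N).1 h)
    rw [not_summable_iff_tendsto_nat_atTop_of_nonneg (fun k => (hpos _).le)] at h1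
    obtain ⟨m, hm⟩ := (h1.eventually_ge_atTop (Real.exp 1 * (x - a))).exists
    have h2 := key m N x hx (by
      have h3 : (Real.exp 1)⁻¹ * (Real.exp 1 * (x - a)) ≤ (Real.exp 1)⁻¹ *
          ∑ k ∈ Finset.range m, M (k + N) / M (k + N + 1) :=
        mul_le_mul_of_nonneg_left hm (by positivity)
      rw [inv_mul_cancel_left₀ (Real.exp_pos 1).ne'] at h3
      linarith) 0
    simpa using h2
  have hlim : Tendsto (fun N : ℕ => Real.exp (-(N : ℝ)) * M 0) atTop (𝓝 (0 * M 0)) := by
    refine Tendsto.mul_const _ ?_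
    exact Real.tendsto_exp_neg_atTop_nhds_zero.comp tendsto_natCast_atTop_atTop
  rw [zero_mul] at hlim
  have := ge_of_tendsto' hlim hall
  exact abs_nonpos_iff.1 this

end Bang

section CarlemanIneq

/-- the weights `c i = (i+2)^(i+1) / (i+1)^i` -/
noncomputable def cw (i : ℕ) : ℝ := (i + 2 : ℝ) ^ (i + 1) / (i + 1 : ℝ) ^ i

lemma cw_pos (i : ℕ) : 0 < cw i := by
  unfold cw
  positivity

lemma prod_cw (n : ℕ) : ∏ i ∈ Finset.range (n + 1), cw i = (n + 2 : ℝ) ^ (n + 1) := by
  induction n with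
  | zero => simp [cw]
  | succ n ih =>
    rw [Finset.prod_range_succ, ih]
    unfold cw
    push_cast
    have h1 : ((n : ℝ) + 1 + 1) = n + 2 := by ring
    rw [h1]
    have h2 : (0 : ℝ) < (n + 2 : ℝ) ^ (n + 1) := by positivity
    field_simp

lemma cw_le (i : ℕ) : cw i ≤ Real.exp 1 * (i + 1) := by
  unfold cw
  rw [div_le_iff₀ (by positivity)]
  have h1 : ((i : ℝ) + 2) / (i + 1) ≤ Real.exp (1 / (i + 1)) := by
    have := Real.add_one_le_exp (1 / ((i : ℝ) + 1))
    refine le_trans (le_of_eq ?_) this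
    field_simp
    ring
  have h2 := pow_le_pow_left₀ (by positivity) h1 (i + 1)
  rw [← Real.exp_nat_mul, div_pow, div_le_iff₀ (by positivity)] at h2
  have h3 : ((i + 1 : ℕ) : ℝ) * (1 / ((i : ℝ) + 1)) = 1 := by
    push_cast
    field_simp
  rw [h3] at h2
  calc ((i : ℝ) + 2) ^ (i + 1) ≤ Real.exp 1 * ((i : ℝ) + 1) ^ (i + 1) := h2
    _ = Real.exp 1 * (i + 1) * (i + 1 : ℝ) ^ i := by rw [pow_succ]; ring

/-- **Carleman's inequality** -/
theorem carleman_ineq {a : ℕ → ℝ} (ha : ∀ n, 0 ≤ a n) (hs : Summable a) :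
    Summable fun n : ℕ => (∏ i ∈ Finset.range (n + 1), a i) ^ (((n : ℝ) + 1)⁻¹) := by
  set S : ℕ → ℝ := fun N => ∑ i ∈ Finset.range N, cw i * a i with hS
  have hS0 : ∀ N, 0 ≤ S N := fun N => Finset.sum_nonneg fun i _ =>
    mul_nonneg (cw_pos i).le (ha i)
  have hG : ∀ n : ℕ, (∏ i ∈ Finset.range (n + 1), a i) ^ (((n : ℝ) + 1)⁻¹) ≤
      S (n + 1) * (1 / (n + 1) - 1 / (n + 2)) := by
    intro n
    have h1 := Real.geom_mean_le_arith_mean (Finset.range (n + 1)) (fun _ => (1 : ℝ))
      (fun i => cw i * a i) (fun _ _ => zero_le_one) (by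
        simp only [Finset.sum_const, Finset.card_range, nsmul_eq_mul, mul_one]
        positivity) (fun i _ => mul_nonneg (cw_pos i).le (ha i))
    simp only [Real.rpow_one, Finset.sum_const, Finset.card_range, nsmul_eq_mul, mul_one,
      one_mul] at h1
    rw [Finset.prod_mul_distrib, prod_cw, Real.mul_rpow (by positivity)
      (Finset.prod_nonneg fun i _ => ha i)] at h1
    have h2 : (((n : ℝ) + 2) ^ (n + 1)) ^ (((n + 1 : ℕ) : ℝ)⁻¹) = n + 2 :=
      Real.pow_rpow_inv_natCast (by positivity) (by omega)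
    rw [h2] at h1
    push_cast at h1
    have h3 : (1 : ℝ) / (n + 1) - 1 / (n + 2) = 1 / ((n + 1) * (n + 2)) := by
      field_simp
      ring
    rw [h3]
    have h4 : (∏ i ∈ Finset.range (n + 1), a i) ^ (((n : ℝ) + 1)⁻¹) =
        ((n + 2 : ℝ) * (∏ i ∈ Finset.range (n + 1), a i) ^ (((n : ℝ) + 1)⁻¹)) / (n + 2) := by
      field_simp
    rw [h4, div_le_iff₀ (by positivity)]
    refine h1.trans (le_of_eq ?_)
    rw [hS]
    field_simp
  have hsum : ∀ N : ℕ, ∑ n ∈ Finset.range N, S (n + 1) * (1 / ((n : ℝ) + 1) - 1 / (n + 2)) +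
      S N / (N + 1) = ∑ i ∈ Finset.range N, cw i * a i / (i + 1) := by
    intro N
    induction N with
    | zero => simp [hS]
    | succ N ih =>
      rw [Finset.sum_range_succ, Finset.sum_range_succ, ← ih]
      have h1 : S (N + 1) = S N + cw N * a N := by
        rw [hS]
        simp only
        rw [Finset.sum_range_succ]
      rw [h1]
      push_cast
      field_simp
      ring
  refine summable_of_sum_range_le (c := Real.exp 1 * ∑' n, a n)
    (fun n => Real.rpow_nonneg (Finset.prod_nonneg fun i _ => ha i) _) fun N => ?_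
  calc ∑ n ∈ Finset.range N, (∏ i ∈ Finset.range (n + 1), a i) ^ (((n : ℝ) + 1)⁻¹) ≤
        ∑ n ∈ Finset.range N, S (n + 1) * (1 / ((n : ℝ) + 1) - 1 / (n + 2)) :=
        Finset.sum_le_sum fun n _ => hG n
    _ ≤ ∑ i ∈ Finset.range N, cw i * a i / (i + 1) := by
        rw [← hsum N]
        have : 0 ≤ S N / (N + 1) := div_nonneg (hS0 N) (by positivity)
        linarith
    _ ≤ ∑ i ∈ Finset.range N, Real.exp 1 * a i := by
        refine Finset.sum_le_sum fun i _ => ?_
        rw [div_le_iff₀ (by positivity)]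
        have := mul_le_mul_of_nonneg_right (cw_le i) (ha i)
        linarith
    _ = Real.exp 1 * ∑ i ∈ Finset.range N, a i := by rw [Finset.mul_sum]
    _ ≤ Real.exp 1 * ∑' n, a n :=
        mul_le_mul_of_nonneg_left (hs.sum_le_tsum _ fun i _ => ha i) (Real.exp_pos 1).le

/-- for a positive sequence, Carleman's condition implies the divergence of `∑ M n / M (n+1)` -/
theorem not_summable_ratio {M : ℕ → ℝ} (hM : ∀ n, 0 < M n)
    (h : ¬ Summable fun n : ℕ => (M (n + 1)) ^ (-(((n : ℝ) + 1)⁻¹))) :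
    ¬ Summable fun n => M n / M (n + 1) := by
  intro hs
  refine h ?_
  have h1 := carleman_ineq (a := fun n => M n / M (n + 1))
    (fun n => (div_pos (hM _) (hM _)).le) hs
  have h2 : ∀ n, ∏ i ∈ Finset.range (n + 1), M i / M (i + 1) = M 0 / M (n + 1) := by
    intro n
    induction n with
    | zero => simp
    | succ n ih =>
      rw [Finset.prod_range_succ, ih]
      have := hM (n + 1)
      field_simp
  simp_rw [h2] at h1
  -- compare
  set c : ℝ := min 1 (M 0) with hc
  have hc0 : 0 < c := lt_min one_pos (hM 0)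
  have hc1 : c ≤ 1 := min_le_left _ _
  have hcM : c ≤ M 0 := min_le_right _ _
  refine Summable.of_nonneg_of_le (fun n => Real.rpow_nonneg (hM _).le _) (fun n => ?_)
    (h1.mul_left c⁻¹)
  have h3 : c ≤ (M 0) ^ (((n : ℝ) + 1)⁻¹) := by
    have h4 : (0 : ℝ) ≤ ((n : ℝ) + 1)⁻¹ := by positivity
    have h5 : ((n : ℝ) + 1)⁻¹ ≤ 1 := inv_le_one_of_one_le₀ (by
      have : (0 : ℝ) ≤ n := Nat.cast_nonneg n
      linarith)
    calc c = c ^ (1 : ℝ) := (Real.rpow_one c).symm
      _ ≤ c ^ (((n : ℝ) + 1)⁻¹) := Real.rpow_le_rpow_of_exponent_ge hc0 hc1 h5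
      _ ≤ (M 0) ^ (((n : ℝ) + 1)⁻¹) := Real.rpow_le_rpow hc0.le hcM h4
  rw [Real.div_rpow (hM 0).le (hM _).le, Real.rpow_neg (hM _).le]
  have h6 : 0 < (M (n + 1)) ^ (((n : ℝ) + 1)⁻¹) := Real.rpow_pos_of_pos (hM _) _
  rw [← one_div, div_le_iff₀ h6]
  have : c⁻¹ * ((M 0) ^ (((n : ℝ) + 1)⁻¹) / (M (n + 1)) ^ (((n : ℝ) + 1)⁻¹)) *
      (M (n + 1)) ^ (((n : ℝ) + 1)⁻¹) = c⁻¹ * (M 0) ^ (((n : ℝ) + 1)⁻¹) := by
    rw [mul_assoc, div_mul_cancel₀ _ h6.ne']
  rw [this]
  calc (1 : ℝ) = c⁻¹ * c := (inv_mul_cancel₀ hc0.ne').symm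
    _ ≤ _ := mul_le_mul_of_nonneg_left h3 (by positivity)

end CarlemanIneq

end Pool.Agent.U507.FW
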