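import Pool.Agent.Y744.PCR.HighPass2
import Pool.Agent.U507.FW.DC

/-! A function with a spectral gap around `0` whose negative part has moments satisfying Carleman's
condition vanishes. -/

set_option autoImplicit false

open MeasureTheory Filter Topology Real
open scoped ENNReal

namespace Pool.Agent.U507.FW

open Pool.Agent.Y744

section

variable {κ : ℝ} {H G : ℝ → ℝ} {B : ℝ}

/-- the even moments of the positive part -/
lemma moment (hκ : 0 < κ) (hm : Measurable H) (hB : ∀ x, |H x| ≤ B * (1 + x ^ 2))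
    (hG : Measurable G) (hG0 : ∀ x, 0 ≤ G x)
    (hl : ∀ᵐ x, -G x ≤ H x)
    (hz : ∀ K, TK κ K → ∫ x, H x * ct K x = 0) (k : ℕ) :
    ∫⁻ x, ENNReal.ofReal (max (H x) 0 * x ^ (2 * k)) ≤
      ∫⁻ x, ENNReal.ofReal (G x * x ^ (2 * k)) := by
  obtain ⟨K, hK, hpos, h0, hle⟩ := exists_pos hκ
  set M := ct K 0 with hM
  have hmp : Measurable fun x => max (H x) 0 := hm.max measurable_const
  have hmn : Measurable fun x => max (-H x) 0 := hm.neg.max measurable_const
  have main : ∀ ε : ℝ, 0 < ε → ε ≤ 1 →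
      ∫⁻ x, ENNReal.ofReal (max (H x) 0 * x ^ (2 * k) * ct K (ε * x)) ≤
      ∫⁻ x, ENNReal.ofReal (G x * x ^ (2 * k) * M) := by
    intro ε hε hε1
    obtain ⟨K', hK', e'⟩ := (hK.dil hε).x_pow_mul k
    have hK'' : TK κ K' := hK'.mono (by nlinarith)
    have e : ∀ x, ct K' x = x ^ (2 * k) * ct K (ε * x) := fun x => by
      rw [← e', TK.ct_dil K hε]
    have hnn : ∀ x, 0 ≤ ct K' x := fun x => by
      rw [e, pow_mul]
      have := hpos (ε * x)
      positivity
    have h1 := hz K' hK''
    have hi := int_mul_ct hm hB hK''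
    have hBp : ∀ x, |max (H x) 0| ≤ B * (1 + x ^ 2) := fun x => by
      rw [abs_of_nonneg (le_max_right _ _)]
      have := hB x
      exact max_le ((le_abs_self _).trans this) ((abs_nonneg _).trans this)
    have hBn : ∀ x, |max (-H x) 0| ≤ B * (1 + x ^ 2) := fun x => by
      rw [abs_of_nonneg (le_max_right _ _)]
      have := hB x
      exact max_le ((neg_le_abs _).trans this) ((abs_nonneg _).trans this)
    have hip := int_mul_ct hmp hBp hK''
    have hin := int_mul_ct hmn hBn hK''
    have h2 : ∫ x, max (H x) 0 * ct K' x = ∫ x, max (-H x) 0 * ct K' x := by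
      have h3 : ∫ x, H x * ct K' x = (∫ x, max (H x) 0 * ct K' x) -
          ∫ x, max (-H x) 0 * ct K' x := by
        rw [← integral_sub hip hin]
        refine integral_congr_ae (Eventually.of_forall fun x => ?_)
        show H x * ct K' x = max (H x) 0 * ct K' x - max (-H x) 0 * ct K' x
        have : H x = max (H x) 0 - max (-H x) 0 := by
          rcases le_total (H x) 0 with h | h
          · rw [max_eq_right h, max_eq_left (by linarith)]; ring
          · rw [max_eq_left h, max_eq_right (by linarith)]; ring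
        nth_rewrite 1 [this]
        ring
      linarith
    have h4 : ∫⁻ x, ENNReal.ofReal (max (H x) 0 * ct K' x) =
        ∫⁻ x, ENNReal.ofReal (max (-H x) 0 * ct K' x) := by
      rw [← ofReal_integral_eq_lintegral_ofReal hip (Eventually.of_forall fun x =>
        mul_nonneg (le_max_right _ _) (hnn x)), h2,
        ofReal_integral_eq_lintegral_ofReal hin (Eventually.of_forall fun x =>
        mul_nonneg (le_max_right _ _) (hnn x))]
    have h5 : ∫⁻ x, ENNReal.ofReal (max (H x) 0 * x ^ (2 * k) * ct K (ε * x)) =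
        ∫⁻ x, ENNReal.ofReal (max (H x) 0 * ct K' x) := by
      refine lintegral_congr fun x => ?_
      rw [e, mul_assoc]
    rw [h5, h4]
    refine lintegral_mono_ae ?_
    filter_upwards [hl] with x hx
    refine ENNReal.ofReal_le_ofReal ?_
    rw [e, ← mul_assoc]
    have h6 : max (-H x) 0 ≤ G x :=
      max_le (by linarith) (hG0 x)
    have h7 : 0 ≤ x ^ (2 * k) := by rw [pow_mul]; positivity
    have h8 : 0 ≤ G x * x ^ (2 * k) := mul_nonneg (hG0 x) h7
    exact mul_le_mul (mul_le_mul_of_nonneg_right h6 h7) (hle _) (hpos _) h8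
  have hMpos : ENNReal.ofReal M ≠ 0 := by simpa using h0
  have key : ∫⁻ x, ENNReal.ofReal (max (H x) 0 * x ^ (2 * k) * M) ≤
      ∫⁻ x, ENNReal.ofReal (G x * x ^ (2 * k) * M) := by
    set f : ℕ → ℝ → ℝ≥0∞ := fun n x =>
      ENNReal.ofReal (max (H x) 0 * x ^ (2 * k) * ct K (1 / ((n : ℝ) + 1) * x)) with hf
    have hfm : ∀ n, Measurable (f n) := fun n => by
      refine ENNReal.measurable_ofReal.comp ?_
      exact (hmp.mul (by fun_prop)).mul (hK.ct_cont.measurable.comp (by fun_prop))
    have hlim : ∀ x, liminf (fun n => f n x) atTop =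
        ENNReal.ofReal (max (H x) 0 * x ^ (2 * k) * M) := by
      intro x
      refine Tendsto.liminf_eq ?_
      refine ENNReal.tendsto_ofReal ?_
      refine tendsto_const_nhds.mul ?_
      have h1 : Tendsto (fun n : ℕ => 1 / ((n : ℝ) + 1) * x) atTop (𝓝 (0 * x)) :=
        tendsto_one_div_add_atTop_nhds_zero_nat.mul_const x
      rw [zero_mul] at h1
      exact (hK.ct_cont.tendsto 0).comp h1
    calc ∫⁻ x, ENNReal.ofReal (max (H x) 0 * x ^ (2 * k) * M) =
          ∫⁻ x, liminf (fun n => f n x) atTop := lintegral_congr fun x => (hlim x).symm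
      _ ≤ liminf (fun n => ∫⁻ x, f n x) atTop := lintegral_liminf_le hfm
      _ ≤ _ := by
          refine liminf_le_of_le (by isBoundedDefault) fun b hb => ?_
          obtain ⟨n, hn⟩ := hb.exists
          refine hn.trans (main _ (by positivity) ?_)
          rw [div_le_one (by positivity)]
          have : (0 : ℝ) ≤ n := Nat.cast_nonneg n
          linarith
  have hr : ∀ (u : ℝ → ℝ), Measurable u → (∀ x, 0 ≤ u x) →
      ∫⁻ x, ENNReal.ofReal (u x * M) = (∫⁻ x, ENNReal.ofReal (u x)) * ENNReal.ofReal M := by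
    intro u hu hu0
    have h1 := lintegral_mul_const (μ := (volume : Measure ℝ)) (ENNReal.ofReal M)
      (f := fun x => ENNReal.ofReal (u x)) hu.ennreal_ofReal
    rw [← h1]
    exact lintegral_congr fun x => ENNReal.ofReal_mul (hu0 x)
  have hx2 : ∀ x : ℝ, 0 ≤ x ^ (2 * k) := fun x => by rw [pow_mul]; positivity
  rw [hr (fun x => max (H x) 0 * x ^ (2 * k)) (hmp.mul (by fun_prop))
      (fun x => mul_nonneg (le_max_right _ _) (hx2 x)),
    hr (fun x => G x * x ^ (2 * k)) (hG.mul (by fun_prop))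
      (fun x => mul_nonneg (hG0 x) (hx2 x))] at key
  exact (ENNReal.mul_le_mul_iff_left hMpos ENNReal.ofReal_ne_top).1 key

/-- the even moments of `|H|` -/
lemma abs_moment (hκ : 0 < κ) (hm : Measurable H) (hB : ∀ x, |H x| ≤ B * (1 + x ^ 2))
    (hG : Measurable G) (hG0 : ∀ x, 0 ≤ G x) (hGi : ∀ k : ℕ, Integrable fun x => G x * x ^ (2 * k))
    (hl : ∀ᵐ x, -G x ≤ H x)
    (hz : ∀ K, TK κ K → ∫ x, H x * ct K x = 0) (k : ℕ) :
    (Integrable fun x => |H x| * x ^ (2 * k)) ∧
      ∫ x, |H x| * x ^ (2 * k) ≤ 2 * ∫ x, G x * x ^ (2 * k) := by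
  have hmp : Measurable fun x => max (H x) 0 := hm.max measurable_const
  have hx2 : ∀ x : ℝ, 0 ≤ x ^ (2 * k) := fun x => by rw [pow_mul]; positivity
  have h1 := moment hκ hm hB hG hG0 hl hz k
  have h2 : Integrable fun x => max (H x) 0 * x ^ (2 * k) := by
    refine ⟨(hmp.mul (by fun_prop)).aestronglyMeasurable, ?_⟩
    rw [hasFiniteIntegral_iff_ofReal (Eventually.of_forall fun x =>
      mul_nonneg (le_max_right _ _) (hx2 x))]
    exact h1.trans_lt (hGi k).lintegral_lt_top
  have h3 : ∀ᵐ x, |H x| * x ^ (2 * k) ≤ max (H x) 0 * x ^ (2 * k) + G x * x ^ (2 * k) := by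
    filter_upwards [hl] with x hx
    rw [← add_mul]
    refine mul_le_mul_of_nonneg_right ?_ (hx2 x)
    rcases abs_cases (H x) with ⟨h, h'⟩ | ⟨h, h'⟩
    · rw [h]
      have := le_max_left (H x) 0
      have := hG0 x
      linarith
    · rw [h]
      have := le_max_right (H x) 0
      linarith
  have h4 : Integrable fun x => |H x| * x ^ (2 * k) := by
    refine (h2.add (hGi k)).mono' (hm.abs.mul (by fun_prop)).aestronglyMeasurable ?_
    filter_upwards [h3] with x hx
    rw [Real.norm_eq_abs, abs_of_nonneg (mul_nonneg (abs_nonneg _) (hx2 x))]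
    exact hx
  refine ⟨h4, ?_⟩
  have h5 : ∫ x, max (H x) 0 * x ^ (2 * k) ≤ ∫ x, G x * x ^ (2 * k) := by
    rw [integral_eq_lintegral_of_nonneg_ae (Eventually.of_forall fun x =>
        mul_nonneg (le_max_right _ _) (hx2 x)) h2.1,
      integral_eq_lintegral_of_nonneg_ae (Eventually.of_forall fun x =>
        mul_nonneg (hG0 x) (hx2 x)) (hGi k).1]
    exact ENNReal.toReal_mono (hGi k).lintegral_lt_top.ne h1
  calc ∫ x, |H x| * x ^ (2 * k) ≤ ∫ x, (max (H x) 0 * x ^ (2 * k) + G x * x ^ (2 * k)) :=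
        integral_mono_ae h4 (h2.add (hGi k)) h3
    _ = (∫ x, max (H x) 0 * x ^ (2 * k)) + ∫ x, G x * x ^ (2 * k) := integral_add h2 (hGi k)
    _ ≤ _ := by linarith

/-- the Fourier transform vanishes near `0` -/
lemma cos_zero (hκ : 0 < κ) (hm : Measurable H) (hi : Integrable H)
    (hz : ∀ K, TK κ K → ∫ x, H x * ct K x = 0) {s : ℝ} (hs : |s| ≤ κ / 2) :
    ∫ x, H x * Real.cos (2 * π * s * x) = 0 := by
  obtain ⟨K, hK, hpos, h0, hle⟩ := exists_pos (κ := κ / 2) (by positivity)
  set M := ct K 0 with hM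
  have h1 : Tendsto (fun n : ℕ => ∫ x, H x * (Real.cos (2 * π * s * x) *
      ct K (1 / ((n : ℝ) + 1) * x))) atTop (𝓝 (∫ x, H x * (Real.cos (2 * π * s * x) * M))) := by
    refine tendsto_integral_of_dominated_convergence (fun x => |H x| * M) (fun n => ?_)
      (hi.abs.mul_const M) (fun n => Eventually.of_forall fun x => ?_)
      (Eventually.of_forall fun x => ?_)
    · exact (hm.mul ((by fun_prop : Measurable fun x : ℝ => Real.cos (2 * π * s * x)).mul
        (hK.ct_cont.measurable.comp (by fun_prop)))).aestronglyMeasurable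
    · rw [Real.norm_eq_abs, abs_mul, abs_mul, abs_of_nonneg (hpos _)]
      refine mul_le_mul_of_nonneg_left ?_ (abs_nonneg _)
      calc |Real.cos (2 * π * s * x)| * ct K (1 / ((n : ℝ) + 1) * x) ≤ 1 * M :=
            mul_le_mul (Real.abs_cos_le_one _) (hle _) (hpos _) zero_le_one
        _ = M := one_mul M
    · refine tendsto_const_nhds.mul (tendsto_const_nhds.mul ?_)
      have h1 : Tendsto (fun n : ℕ => 1 / ((n : ℝ) + 1) * x) atTop (𝓝 (0 * x)) :=
        tendsto_one_div_add_atTop_nhds_zero_nat.mul_const x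
      rw [zero_mul] at h1
      exact (hK.ct_cont.tendsto 0).comp h1
  have h2 : ∀ n : ℕ, ∫ x, H x * (Real.cos (2 * π * s * x) * ct K (1 / ((n : ℝ) + 1) * x)) = 0 := by
    intro n
    have hε : (0 : ℝ) < 1 / ((n : ℝ) + 1) := by positivity
    have hε1 : 1 / ((n : ℝ) + 1) ≤ 1 := by
      rw [div_le_one (by positivity)]
      have : (0 : ℝ) ≤ n := Nat.cast_nonneg n
      linarith
    have hK' := (hK.dil hε).modul s
    have hK'' := hK'.mono (κ' := κ) (by nlinarith)
    have h3 := hz _ hK''
    rw [← h3]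
    refine integral_congr_ae (Eventually.of_forall fun x => ?_)
    show H x * (Real.cos (2 * π * s * x) * ct K (1 / ((n : ℝ) + 1) * x)) = H x * _
    rw [(hK.dil hε).ct_modul, TK.ct_dil K hε]
  simp_rw [h2] at h1
  have h3 := tendsto_nhds_unique h1 tendsto_const_nhds
  have h4 : ∫ x, H x * (Real.cos (2 * π * s * x) * M) =
      (∫ x, H x * Real.cos (2 * π * s * x)) * M := by
    rw [← integral_mul_const]
    refine integral_congr_ae (Eventually.of_forall fun x => ?_)
    show H x * (Real.cos (2 * π * s * x) * M) = H x * Real.cos (2 * π * s * x) * M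
    ring
  rw [h4] at h3
  exact (mul_eq_zero.1 h3).resolve_right h0.ne'

end

section Fourier

variable {H : ℝ → ℝ}

/-- all absolute moments from the even ones -/
lemma all_moments (hm : Measurable H) (hi : ∀ k : ℕ, Integrable fun x => |H x| * x ^ (2 * k))
    (n : ℕ) : Integrable fun x => |H x| * |x| ^ n := by
  have h2 : ∀ k : ℕ, ∀ x : ℝ, |x| ^ (2 * k) = x ^ (2 * k) := fun k x => by
    rw [pow_mul, pow_mul, sq_abs]
  rcases Nat.even_or_odd n with ⟨k, hk⟩ | ⟨k, hk⟩
  · have e : n = 2 * k := by omega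
    subst e
    simp_rw [h2]
    exact hi k
  · subst hk
    have h3 := (hi k).add (hi (k + 1))
    refine h3.mono' (hm.abs.mul (by fun_prop)).aestronglyMeasurable
      (Eventually.of_forall fun x => ?_)
    rw [Real.norm_eq_abs, abs_of_nonneg (by positivity)]
    show |H x| * |x| ^ (2 * k + 1) ≤ |H x| * x ^ (2 * k) + |H x| * x ^ (2 * (k + 1))
    rw [← mul_add]
    refine mul_le_mul_of_nonneg_left ?_ (abs_nonneg _)
    rw [← h2 k x, ← h2 (k + 1) x]
    have h4 : 0 ≤ |x| ^ (2 * k) := by positivity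
    have h5 : |x| ^ (2 * (k + 1)) = |x| ^ (2 * k) * |x| ^ 2 := by ring
    rw [h5, pow_succ]
    nlinarith [sq_nonneg (|x| - 1), abs_nonneg x]

/-- absolute moments -/
noncomputable def Mo (H : ℝ → ℝ) (n : ℕ) : ℝ := ∫ x, |H x| * |x| ^ n

/-- the derivatives of the cosine transform -/
noncomputable def fn (H : ℝ → ℝ) (n : ℕ) (t : ℝ) : ℝ :=
  ∫ x, H x * (x ^ n * Real.cos (t * x + n * (π / 2)))

lemma fn_int (hm : Measurable H) (hi : ∀ n : ℕ, Integrable fun x => |H x| * |x| ^ n) (n : ℕ)
    (t : ℝ) : Integrable fun x => H x * (x ^ n * Real.cos (t * x + n * (π / 2))) := by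
  refine (hi n).mono' (hm.mul (by fun_prop)).aestronglyMeasurable
    (Eventually.of_forall fun x => ?_)
  rw [Real.norm_eq_abs, abs_mul, abs_mul, abs_pow]
  refine mul_le_mul_of_nonneg_left ?_ (abs_nonneg _)
  exact mul_le_of_le_one_right (by positivity) (Real.abs_cos_le_one _)

lemma fn_bound (hm : Measurable H) (hi : ∀ n : ℕ, Integrable fun x => |H x| * |x| ^ n) (n : ℕ)
    (t : ℝ) : |fn H n t| ≤ Mo H n := by
  unfold fn Mo
  refine (abs_integral_le_integral_abs).trans ?_
  refine integral_mono (fn_int hm hi n t).abs (hi n) fun x => ?_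
  show |H x * (x ^ n * Real.cos (t * x + n * (π / 2)))| ≤ |H x| * |x| ^ n
  rw [abs_mul, abs_mul, abs_pow]
  refine mul_le_mul_of_nonneg_left ?_ (abs_nonneg _)
  exact mul_le_of_le_one_right (by positivity) (Real.abs_cos_le_one _)

lemma fn_deriv (hm : Measurable H) (hi : ∀ n : ℕ, Integrable fun x => |H x| * |x| ^ n) (n : ℕ)
    (t : ℝ) : HasDerivAt (fn H n) (fn H (n + 1) t) t := by
  have key := hasDerivAt_integral_of_dominated_loc_of_deriv_le (μ := (volume : Measure ℝ))
    (F := fun t x => H x * (x ^ n * Real.cos (t * x + n * (π / 2))))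
    (F' := fun t x => H x * (x ^ (n + 1) * Real.cos (t * x + (n + 1 : ℕ) * (π / 2))))
    (x₀ := t) (s := Set.univ) (bound := fun x => |H x| * |x| ^ (n + 1)) univ_mem
    (Eventually.of_forall fun s => (fn_int hm hi n s).aestronglyMeasurable) (fn_int hm hi n t)
    (fn_int hm hi (n + 1) t).aestronglyMeasurable ?_ (hi (n + 1)) ?_
  · exact key.2
  · refine Eventually.of_forall fun x s _ => ?_
    rw [Real.norm_eq_abs, abs_mul, abs_mul, abs_pow]
    refine mul_le_mul_of_nonneg_left ?_ (abs_nonneg _)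
    exact mul_le_of_le_one_right (by positivity) (Real.abs_cos_le_one _)
  · refine Eventually.of_forall fun x s _ => ?_
    have h1 : HasDerivAt (fun s : ℝ => s * x + n * (π / 2)) x s := by
      have := ((hasDerivAt_id s).mul_const x).add_const (n * (π / 2))
      simpa using this
    have h2 := ((h1.cos).const_mul (x ^ n)).const_mul (H x)
    refine h2.congr_deriv ?_
    have e : Real.cos (s * x + ((n + 1 : ℕ) : ℝ) * (π / 2)) = -Real.sin (s * x + n * (π / 2)) := by
      rw [← Real.cos_add_pi_div_two]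
      congr 1
      push_cast
      ring
    rw [e]
    ring

lemma Mo_logconvex (hi : ∀ n : ℕ, Integrable fun x => |H x| * |x| ^ n)
    (hpos : ∀ n, 0 < Mo H n) (n : ℕ) : Mo H (n + 1) ^ 2 ≤ Mo H n * Mo H (n + 2) := by
  set c : ℝ := Mo H (n + 1) / Mo H n with hc
  have h1 : 0 ≤ ∫ x, |H x| * |x| ^ n * (|x| - c) ^ 2 :=
    integral_nonneg fun x => by positivity
  have h2 : ∫ x, |H x| * |x| ^ n * (|x| - c) ^ 2 =
      Mo H (n + 2) - 2 * c * Mo H (n + 1) + c ^ 2 * Mo H n := by
    have e : ∀ x : ℝ, |H x| * |x| ^ n * (|x| - c) ^ 2 =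
        (|H x| * |x| ^ (n + 2) - 2 * c * (|H x| * |x| ^ (n + 1))) + c ^ 2 * (|H x| * |x| ^ n) := by
      intro x
      ring
    simp_rw [e]
    have i1 := hi (n + 2)
    have i2 := (hi (n + 1)).const_mul (2 * c)
    have i3 := (hi n).const_mul (c ^ 2)
    have i4 : Integrable fun x => |H x| * |x| ^ (n + 2) - 2 * c * (|H x| * |x| ^ (n + 1)) :=
      i1.sub i2
    rw [integral_add i4 i3, integral_sub i1 i2, integral_const_mul, integral_const_mul]
    rfl
  rw [h2] at h1
  have h3 := hpos n
  have h4 : c * Mo H n = Mo H (n + 1) := by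
    rw [hc]
    exact div_mul_cancel₀ _ h3.ne'
  have h5 : (Mo H (n + 2) - 2 * c * Mo H (n + 1) + c ^ 2 * Mo H n) * Mo H n =
      Mo H (n + 2) * Mo H n - Mo H (n + 1) ^ 2 := by
    have : c ^ 2 * Mo H n * Mo H n = (c * Mo H n) ^ 2 := by ring
    calc _ = Mo H (n + 2) * Mo H n - 2 * (c * Mo H n) * Mo H (n + 1) + (c * Mo H n) ^ 2 := by ring
      _ = _ := by rw [h4]; ring
  have h6 := mul_nonneg h1 h3.le
  rw [h5] at h6
  linarith

/-- the cosine transform vanishes identically -/
lemma cos_all {κ : ℝ} (hκ : 0 < κ) (hm : Measurable H)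
    (hi : ∀ n : ℕ, Integrable fun x => |H x| * |x| ^ n)
    (hz : ∀ s, |s| ≤ κ / 2 → ∫ x, H x * Real.cos (2 * π * s * x) = 0)
    (hpos : ∀ n, 0 < Mo H n)
    (hdiv : ¬ Summable fun n : ℕ => (Mo H (n + 1)) ^ (-(((n : ℝ) + 1)⁻¹))) (t : ℝ) :
    ∫ x, H x * Real.cos (t * x) = 0 := by
  have hpi := Real.pi_pos
  have f0 : ∀ t, fn H 0 t = ∫ x, H x * Real.cos (t * x) := by
    intro t
    unfold fn
    simp
  have hflat : ∀ n, ∀ t, |t| < π * κ → fn H n t = 0 := by
    intro n
    induction n with
    | zero =>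
      intro t ht
      rw [f0]
      have h1 := hz (t / (2 * π)) (by
        rw [abs_div, abs_of_pos (by positivity : (0 : ℝ) < 2 * π), div_le_iff₀ (by positivity)]
        linarith)
      rw [← h1]
      refine integral_congr_ae (Eventually.of_forall fun x => ?_)
      show H x * Real.cos (t * x) = H x * Real.cos (2 * π * (t / (2 * π)) * x)
      have : 2 * π * (t / (2 * π)) = t := by field_simp
      rw [this]
    | succ n ih =>
      intro t ht
      have h1 := fn_deriv hm hi n t
      have h2 : fn H n =ᶠ[𝓝 t] fun _ => (0 : ℝ) := by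
        have h3 : ∀ᶠ s in 𝓝 t, |s| < π * κ := continuous_abs.continuousAt.eventually_lt_const ht
        filter_upwards [h3] with s hs using ih s hs
      have h3 : HasDerivAt (fn H n) 0 t := (hasDerivAt_const t (0 : ℝ)).congr_of_eventuallyEq h2
      exact h1.unique h3
  have hnn : ∀ t, 0 ≤ t → ∫ x, H x * Real.cos (t * x) = 0 := by
    intro t ht
    rw [← f0]
    exact denjoy_carleman (f := fn H) (M := Mo H) hpos (Mo_logconvex hi hpos)
      (not_summable_ratio hpos hdiv) (fn_deriv hm hi) (fn_bound hm hi) (a := 0)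
      (fun n => hflat n 0 (by rw [abs_zero]; positivity)) ht
  rcases le_total 0 t with h | h
  · exact hnn t h
  · have h1 := hnn (-t) (by linarith)
    rw [← h1]
    refine integral_congr_ae (Eventually.of_forall fun x => ?_)
    show H x * Real.cos (t * x) = H x * Real.cos (-t * x)
    rw [neg_mul, Real.cos_neg]

/-- an even integrable function with vanishing cosine transform vanishes -/
lemma eq_zero_of_cos (hm : Measurable H) (he : ∀ x, H (-x) = H x) (hHi : Integrable H)
    (hc : ∀ t, ∫ x, H x * Real.cos (t * x) = 0) : ∀ᵐ x, H x = 0 := by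
  set P : ℝ → ℝ := fun x => max (H x) 0 with hP
  set N : ℝ → ℝ := fun x => max (-H x) 0 with hN
  have hPm : Measurable P := hm.max measurable_const
  have hNm : Measurable N := hm.neg.max measurable_const
  have hP0 : ∀ x, 0 ≤ P x := fun x => le_max_right _ _
  have hN0 : ∀ x, 0 ≤ N x := fun x => le_max_right _ _
  have hPN : ∀ x, H x = P x - N x := by
    intro x
    simp only [hP, hN]
    rcases le_total (H x) 0 with h | h
    · rw [max_eq_right h, max_eq_left (by linarith)]; ring
    · rw [max_eq_left h, max_eq_right (by linarith)]; ring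
  have hPi1 : Integrable P := hHi.abs.mono' hPm.aestronglyMeasurable
    (Eventually.of_forall fun x => by
      rw [Real.norm_eq_abs, abs_of_nonneg (hP0 x)]
      exact max_le (le_abs_self _) (abs_nonneg _))
  have hNi1 : Integrable N := hHi.abs.mono' hNm.aestronglyMeasurable
    (Eventually.of_forall fun x => by
      rw [Real.norm_eq_abs, abs_of_nonneg (hN0 x)]
      exact max_le (neg_le_abs _) (abs_nonneg _))
  have : IsFiniteMeasure (den P) := isFiniteMeasure_withDensity_ofReal hPi1.2
  have : IsFiniteMeasure (den N) := isFiniteMeasure_withDensity_ofReal hNi1.2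
  have hchar : charFun (den P) = charFun (den N) := by
    funext t
    rw [charFun_apply_real, charFun_apply_real, den_int hPm hP0, den_int hNm hN0, ← sub_eq_zero]
    have hn : ∀ x : ℝ, ‖Complex.exp (t * x * Complex.I)‖ ≤ 1 := by
      intro x
      have : (t : ℂ) * x * Complex.I = ((t * x : ℝ) : ℂ) * Complex.I := by push_cast; ring
      rw [this, Complex.norm_exp_ofReal_mul_I]
    have jP : Integrable fun x : ℝ => (P x : ℂ) * Complex.exp (t * x * Complex.I) :=
      (hPi1.ofReal (𝕜 := ℂ)).mul_bdd (c := 1) (by fun_prop) (Eventually.of_forall hn)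
    have jN : Integrable fun x : ℝ => (N x : ℂ) * Complex.exp (t * x * Complex.I) :=
      (hNi1.ofReal (𝕜 := ℂ)).mul_bdd (c := 1) (by fun_prop) (Eventually.of_forall hn)
    rw [← integral_sub jP jN]
    have hs0 : ∫ x, H x * Real.sin (t * x) = 0 := by
      have h1 : ∫ x, H x * Real.sin (t * x) = ∫ x, H (-x) * Real.sin (t * (-x)) :=
        (integral_neg_eq_self (fun x => H x * Real.sin (t * x)) volume).symm
      have h2 : ∫ x, H (-x) * Real.sin (t * (-x)) = -∫ x, H x * Real.sin (t * x) := by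
        rw [← integral_neg]
        refine integral_congr_ae (Eventually.of_forall fun x => ?_)
        show H (-x) * Real.sin (t * (-x)) = -(H x * Real.sin (t * x))
        rw [he, mul_neg, Real.sin_neg]
        ring
      linarith
    have hic : Integrable fun x => H x * Real.cos (t * x) :=
      hHi.mul_bdd (c := 1) (by fun_prop) (Eventually.of_forall fun x => by
        rw [Real.norm_eq_abs]; exact Real.abs_cos_le_one _)
    have his : Integrable fun x => H x * Real.sin (t * x) :=
      hHi.mul_bdd (c := 1) (by fun_prop) (Eventually.of_forall fun x => by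
        rw [Real.norm_eq_abs]; exact Real.abs_sin_le_one _)
    have e : ∀ x : ℝ, (P x : ℂ) * Complex.exp (t * x * Complex.I) -
        (N x : ℂ) * Complex.exp (t * x * Complex.I) =
        ((H x * Real.cos (t * x) : ℝ) : ℂ) + ((H x * Real.sin (t * x) : ℝ) : ℂ) * Complex.I := by
      intro x
      rw [Complex.exp_mul_I, hPN x]
      push_cast
      ring
    simp_rw [e]
    rw [integral_add hic.ofReal (his.ofReal.mul_const _), integral_mul_const]
    have i1 : ∫ x, ((H x * Real.cos (t * x) : ℝ) : ℂ) = ((∫ x, H x * Real.cos (t * x) : ℝ) : ℂ) :=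
      integral_ofReal
    have i2 : ∫ x, ((H x * Real.sin (t * x) : ℝ) : ℂ) = ((∫ x, H x * Real.sin (t * x) : ℝ) : ℂ) :=
      integral_ofReal
    rw [i1, i2, hc t, hs0]
    simp
  have hmeas := Measure.ext_of_charFun hchar
  have hfin : ∫⁻ x, ENNReal.ofReal (P x) ≠ ⊤ := hPi1.lintegral_lt_top.ne
  have heq := (withDensity_eq_iff hPm.ennreal_ofReal.aemeasurable hNm.ennreal_ofReal.aemeasurable
    hfin).1 hmeas
  filter_upwards [heq] with x hx
  have h1 : P x = N x := (ENNReal.ofReal_eq_ofReal_iff (hP0 x) (hN0 x)).1 hx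
  rw [hPN x, h1, sub_self]

end Fourier

/-- **a function with a spectral gap whose negative part has moments satisfying Carleman's
condition vanishes** -/
theorem high_pass {κ : ℝ} {H G : ℝ → ℝ} {B : ℝ} (hκ : 0 < κ) (hm : Measurable H)
    (he : ∀ x, H (-x) = H x) (hB : ∀ x, |H x| ≤ B * (1 + x ^ 2))
    (hG : Measurable G) (hG0 : ∀ x, 0 ≤ G x) (hGi : ∀ k : ℕ, Integrable fun x => G x * x ^ (2 * k))
    (hGd : ¬ Summable fun k : ℕ => (∫ x, G x * x ^ (2 * (k + 1))) ^ (-((2 * ((k : ℝ) + 1))⁻¹)))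
    (hl : ∀ᵐ x, -G x ≤ H x)
    (hz : ∀ K, TK κ K → ∫ x, H x * ct K x = 0) : ∀ᵐ x, H x = 0 := by
  have hab := abs_moment hκ hm hB hG hG0 hGi hl hz
  have hi := all_moments hm fun k => (hab k).1
  have hHi : Integrable H := by
    have := hi 0
    simp only [pow_zero, mul_one] at this
    exact (integrable_norm_iff hm.aestronglyMeasurable).1 this
  by_contra hne
  have hpos : ∀ n, 0 < Mo H n := by
    intro n
    have h0 : 0 ≤ Mo H n := integral_nonneg fun x => by positivity
    refine lt_of_le_of_ne h0 fun h1 => hne ?_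
    have h2 := (integral_eq_zero_iff_of_nonneg (fun x => by positivity) (hi n)).1 h1.symm
    have h3 : ∀ᵐ x : ℝ, x ≠ 0 := by
      rw [ae_iff]
      simp
    filter_upwards [h2, h3] with x hx hx0
    have h4 : |H x| * |x| ^ n = 0 := hx
    have h5 : 0 < |x| ^ n := by positivity
    exact abs_eq_zero.1 ((mul_eq_zero.1 h4).resolve_right h5.ne')
  refine hne (eq_zero_of_cos hm he hHi (cos_all hκ hm hi (fun s hs => cos_zero hκ hm hHi hz hs)
    hpos ?_))
  intro hs
  refine hGd ?_
  -- compare the even terms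
  have h1 : Summable fun k : ℕ => (Mo H (2 * (k + 1))) ^ (-((2 * ((k : ℝ) + 1))⁻¹)) := by
    have h2 := hs.comp_injective (i := fun k : ℕ => 2 * k + 1) (fun a b h => by
      simp only at h
      omega)
    refine h2.congr fun k => ?_
    simp only [Function.comp]
    have e1 : 2 * k + 1 + 1 = 2 * (k + 1) := by ring
    rw [e1]
    congr 3
    push_cast
    ring
  have hev : ∀ k, Mo H (2 * k) ≤ 2 * ∫ x, G x * x ^ (2 * k) := by
    intro k
    refine le_trans (le_of_eq ?_) (hab k).2
    unfold Mo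
    refine integral_congr_ae (Eventually.of_forall fun x => ?_)
    show |H x| * |x| ^ (2 * k) = |H x| * x ^ (2 * k)
    rw [pow_mul, pow_mul, sq_abs]
  have hgp : ∀ k, 0 < ∫ x, G x * x ^ (2 * k) := by
    intro k
    have := hev k
    have := hpos (2 * k)
    linarith
  refine Summable.of_nonneg_of_le (fun k => Real.rpow_nonneg (hgp _).le _) (fun k => ?_)
    (h1.mul_left 2)
  have hk : (0 : ℝ) ≤ k := Nat.cast_nonneg k
  have h2 : (2 * ∫ x, G x * x ^ (2 * (k + 1))) ^ (-((2 * ((k : ℝ) + 1))⁻¹)) ≤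
      (Mo H (2 * (k + 1))) ^ (-((2 * ((k : ℝ) + 1))⁻¹)) := by
    refine Real.rpow_le_rpow_of_nonpos (hpos _) (hev _) ?_
    have : 0 ≤ (2 * ((k : ℝ) + 1))⁻¹ := by positivity
    linarith
  rw [Real.mul_rpow (by norm_num) (hgp _).le] at h2
  have h3 : (1 : ℝ) / 2 ≤ (2 : ℝ) ^ (-((2 * ((k : ℝ) + 1))⁻¹)) := by
    have h4 : (2 : ℝ) ^ (-1 : ℝ) ≤ (2 : ℝ) ^ (-((2 * ((k : ℝ) + 1))⁻¹)) := by
      refine Real.rpow_le_rpow_of_exponent_le (by norm_num) ?_
      have : (2 * ((k : ℝ) + 1))⁻¹ ≤ 1 := inv_le_one_of_one_le₀ (by linarith)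
      linarith
    rw [Real.rpow_neg_one] at h4
    linarith
  have h5 : 0 ≤ (∫ x, G x * x ^ (2 * (k + 1))) ^ (-((2 * ((k : ℝ) + 1))⁻¹)) :=
    Real.rpow_nonneg (hgp _).le _
  nlinarith

end Pool.Agent.U507.FW
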