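import Pool.Agent.U507.FW.Cls

/-! Transfer of Carleman's condition. -/

set_option autoImplicit false

open MeasureTheory Filter Topology

namespace Pool.Agent.U507.FW

lemma carl_transfer {e g : ℕ → ℝ} {Q R B : ℝ} (hQ : 1 ≤ Q) (hR : 0 < R) (hB : 0 ≤ B)
    (hg0 : ∀ k, 0 < g k)
    (hg : ∀ k, g k ≤ 2 * Q ^ (2 * (k + 1)) * e k + B * R ^ (2 * (k + 1)))
    (hdiv : ¬ Summable fun k : ℕ => (e k) ^ (-((2 * ((k : ℝ) + 1))⁻¹))) (he : ∀ k, 0 ≤ e k) :
    ¬ Summable fun k : ℕ => (g k) ^ (-((2 * ((k : ℝ) + 1))⁻¹)) := by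
  intro hs
  refine hdiv ?_
  set W : ℝ := R * (2 * B + 1) with hW
  have hW0 : 0 < W := by positivity
  have hcast : ∀ k : ℕ, (2 * ((k : ℝ) + 1))⁻¹ = (((2 * (k + 1) : ℕ) : ℝ))⁻¹ := fun k => by
    push_cast
    rfl
  have hev : ∀ᶠ k : ℕ in atTop, (g k) ^ (-((2 * ((k : ℝ) + 1))⁻¹)) < W⁻¹ :=
    (tendsto_order.1 hs.tendsto_atTop_zero).2 _ (by positivity)
  refine Summable.of_norm_bounded_eventually_nat (g := fun k : ℕ =>
    4 * Q * (g k) ^ (-((2 * ((k : ℝ) + 1))⁻¹))) (hs.mul_left _) ?_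
  filter_upwards [hev] with k hk
  rw [Real.norm_eq_abs, abs_of_nonneg (Real.rpow_nonneg (he k) _)]
  have hgk := hg0 k
  have h1 : W ^ (2 * (k + 1)) ≤ g k := by
    rw [Real.rpow_neg hgk.le, inv_lt_inv₀ (Real.rpow_pos_of_pos hgk _) hW0] at hk
    have h2 := pow_le_pow_left₀ hW0.le hk.le (2 * (k + 1))
    rwa [hcast, Real.rpow_inv_natCast_pow hgk.le (by omega)] at h2
  have h2 : B * R ^ (2 * (k + 1)) ≤ g k / 2 := by
    have h3 : (2 * B + 1) * R ^ (2 * (k + 1)) ≤ W ^ (2 * (k + 1)) := by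
      rw [hW, mul_pow, mul_comm]
      refine mul_le_mul_of_nonneg_left ?_ (by positivity)
      exact le_self_pow₀ (by linarith) (by omega)
    have h4 : 0 < R ^ (2 * (k + 1)) := by positivity
    nlinarith
  have h3 : g k ≤ 4 * Q ^ (2 * (k + 1)) * e k := by
    have := hg k
    linarith
  have hek : 0 < e k := by
    by_contra hc
    have : e k = 0 := le_antisymm (not_lt.1 hc) (he k)
    rw [this, mul_zero] at h3
    linarith
  have hx : 0 ≤ (2 * ((k : ℝ) + 1))⁻¹ := by positivity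
  have h4 : (4 * Q ^ (2 * (k + 1)) * e k) ^ (-((2 * ((k : ℝ) + 1))⁻¹)) ≤
      (g k) ^ (-((2 * ((k : ℝ) + 1))⁻¹)) :=
    Real.rpow_le_rpow_of_nonpos hgk h3 (by linarith)
  have h5 : (4 * Q ^ (2 * (k + 1)) * e k) ^ (-((2 * ((k : ℝ) + 1))⁻¹)) =
      (4 : ℝ) ^ (-((2 * ((k : ℝ) + 1))⁻¹)) * Q⁻¹ * (e k) ^ (-((2 * ((k : ℝ) + 1))⁻¹)) := by
    rw [Real.mul_rpow (by positivity) hek.le, Real.mul_rpow (by norm_num) (by positivity)]
    congr 2
    rw [Real.rpow_neg (by positivity), hcast, Real.pow_rpow_inv_natCast (by linarith) (by omega)]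
  have h6 : (1 : ℝ) / 4 ≤ (4 : ℝ) ^ (-((2 * ((k : ℝ) + 1))⁻¹)) := by
    have h7 : (4 : ℝ) ^ (-1 : ℝ) ≤ (4 : ℝ) ^ (-((2 * ((k : ℝ) + 1))⁻¹)) := by
      refine Real.rpow_le_rpow_of_exponent_le (by norm_num) ?_
      have : (2 * ((k : ℝ) + 1))⁻¹ ≤ 1 := inv_le_one_of_one_le₀ (by
        have : (0 : ℝ) ≤ k := Nat.cast_nonneg k
        linarith)
      linarith
    rw [Real.rpow_neg_one] at h7
    linarith
  rw [h5] at h4
  have h8 : 0 < (e k) ^ (-((2 * ((k : ℝ) + 1))⁻¹)) := Real.rpow_pos_of_pos hek _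
  have h9 : 1 / 4 * Q⁻¹ * (e k) ^ (-((2 * ((k : ℝ) + 1))⁻¹)) ≤
      (g k) ^ (-((2 * ((k : ℝ) + 1))⁻¹)) := by
    refine le_trans ?_ h4
    have hQ' : 0 < Q⁻¹ := by positivity
    exact mul_le_mul_of_nonneg_right (mul_le_mul_of_nonneg_right h6 hQ'.le) h8.le
  have h10 : 4 * Q * (1 / 4 * Q⁻¹ * (e k) ^ (-((2 * ((k : ℝ) + 1))⁻¹))) =
      (e k) ^ (-((2 * ((k : ℝ) + 1))⁻¹)) := by
    have : Q ≠ 0 := by linarith
    field_simp
  rw [← h10]
  exact mul_le_mul_of_nonneg_left h9 (by positivity)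

/-- the bound for the negative part on the whole line -/
noncomputable def Gf (E : ℝ → ℝ) (R h B : ℝ) (x : ℝ) : ℝ := if R ≤ |x| then E (|x| - h) else B

lemma Gf_meas {E : ℝ → ℝ} (hE : Measurable E) (R h B : ℝ) : Measurable (Gf E R h B) := by
  unfold Gf
  exact Measurable.ite (measurableSet_le measurable_const (by fun_prop))
    (hE.comp (by fun_prop)) measurable_const

lemma Gf_nonneg {E : ℝ → ℝ} (hE : ∀ x, 0 ≤ E x) (R h : ℝ) {B : ℝ} (hB : 0 ≤ B) (x : ℝ) :
    0 ≤ Gf E R h B x := by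
  unfold Gf
  split_ifs
  · exact hE _
  · exact hB

lemma Gf_mom {E : ℝ → ℝ} (hE : Carl E) {a h B : ℝ} (ha : 0 < a) (hh : 0 < h) (hB : 0 < B)
    (k : ℕ) : (Integrable fun x => Gf E (a + h) h B x * x ^ (2 * k)) ∧
      ∫ x, Gf E (a + h) h B x * x ^ (2 * k) ≤
        2 * (1 + h / a) ^ (2 * k) * (∫ x in Set.Ioi (0 : ℝ), x ^ (2 * k) * E x) +
          2 * (a + h) * B * (a + h) ^ (2 * k) := by
  obtain ⟨hm, h0, hi, -⟩ := hE
  set R := a + h with hR
  set Q := 1 + h / a with hQ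
  have hR0 : 0 < R := by positivity
  have hQ1 : 1 ≤ Q := by
    have : 0 ≤ h / a := by positivity
    linarith
  set Φ : ℝ → ℝ := (Set.Ioi (0 : ℝ)).indicator fun x => x ^ (2 * k) * E x with hΦ
  have hΦi : Integrable Φ := (integrable_indicator_iff measurableSet_Ioi).2 (hi (2 * k))
  have hΦ0 : ∀ x, 0 ≤ Φ x := fun x => Set.indicator_nonneg (fun y _ =>
    mul_nonneg (by rw [pow_mul]; positivity) (h0 y)) x
  have hΦint : ∫ x, Φ x = ∫ x in Set.Ioi (0 : ℝ), x ^ (2 * k) * E x :=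
    integral_indicator measurableSet_Ioi
  set Ψ : ℝ → ℝ := (Set.Icc (-R) R).indicator fun _ => B * R ^ (2 * k) with hΨ
  have hΨi : Integrable Ψ := by
    refine (integrable_indicator_iff measurableSet_Icc).2 ?_
    exact continuous_const.integrableOn_Icc
  have hΨ0 : ∀ x, 0 ≤ Ψ x := fun x => Set.indicator_nonneg (fun y _ => by positivity) x
  have hΨint : ∫ x, Ψ x = 2 * R * B * R ^ (2 * k) := by
    rw [hΨ, integral_indicator measurableSet_Icc, setIntegral_const, Real.volume_real_Icc_of_le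
      (by linarith), smul_eq_mul]
    ring
  have hx2 : ∀ x : ℝ, 0 ≤ x ^ (2 * k) := fun x => by rw [pow_mul]; positivity
  have hpt : ∀ x, Gf E R h B x * x ^ (2 * k) ≤
      Q ^ (2 * k) * (Φ (x - h) + Φ (-x - h)) + Ψ x := by
    intro x
    have q0 : 0 ≤ Q ^ (2 * k) := by positivity
    unfold Gf
    split_ifs with hx
    · have h1 : E (|x| - h) * |x| ^ (2 * k) ≤ Q ^ (2 * k) * Φ (|x| - h) := by
        have h2 : 0 < |x| - h := by linarith
        rw [hΦ, Set.indicator_of_mem (show |x| - h ∈ Set.Ioi (0 : ℝ) from h2)]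
        have h3 : |x| ≤ Q * (|x| - h) := by
          have h4 : a ≤ |x| - h := by linarith
          have h5 : h / a * a = h := div_mul_cancel₀ _ ha.ne'
          have h6 : h / a * a ≤ h / a * (|x| - h) := mul_le_mul_of_nonneg_left h4 (by positivity)
          rw [hQ, add_mul, one_mul]
          linarith
        have h4 := pow_le_pow_left₀ (abs_nonneg x) h3 (2 * k)
        rw [mul_pow] at h4
        calc E (|x| - h) * |x| ^ (2 * k) ≤ E (|x| - h) * (Q ^ (2 * k) * (|x| - h) ^ (2 * k)) :=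
              mul_le_mul_of_nonneg_left h4 (h0 _)
          _ = Q ^ (2 * k) * ((|x| - h) ^ (2 * k) * E (|x| - h)) := by ring
      have h2 : Φ (|x| - h) ≤ Φ (x - h) + Φ (-x - h) := by
        rcases abs_cases x with ⟨h3, _⟩ | ⟨h3, _⟩
        · rw [h3]
          have := hΦ0 (-x - h)
          linarith
        · rw [h3]
          have := hΦ0 (x - h)
          linarith
      have h3 : |x| ^ (2 * k) = x ^ (2 * k) := by rw [pow_mul, pow_mul, sq_abs]
      rw [h3] at h1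
      have h4 := mul_le_mul_of_nonneg_left h2 q0
      have h5 := hΨ0 x
      linarith
    · push Not at hx
      have h1 : x ∈ Set.Icc (-R) R := by
        have := abs_lt.1 hx
        exact ⟨this.1.le, this.2.le⟩
      rw [hΨ, Set.indicator_of_mem h1]
      have h2 : x ^ (2 * k) ≤ R ^ (2 * k) := by
        have h3 : |x| ^ (2 * k) = x ^ (2 * k) := by rw [pow_mul, pow_mul, sq_abs]
        rw [← h3]
        exact pow_le_pow_left₀ (abs_nonneg _) hx.le _
      have h3 : 0 ≤ Q ^ (2 * k) * (Φ (x - h) + Φ (-x - h)) :=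
        mul_nonneg q0 (add_nonneg (hΦ0 _) (hΦ0 _))
      have h4 := mul_le_mul_of_nonneg_left h2 hB.le
      linarith
  have i1 : Integrable fun x => Φ (x - h) := hΦi.comp_sub_right h
  have i2 : Integrable fun x => Φ (-x - h) := by
    have := i1.comp_neg
    exact this
  have i3 : Integrable fun x => Q ^ (2 * k) * (Φ (x - h) + Φ (-x - h)) + Ψ x :=
    ((i1.add i2).const_mul _).add hΨi
  have hG0 := Gf_nonneg h0 R h hB.le
  have hint : Integrable fun x => Gf E R h B x * x ^ (2 * k) := by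
    refine i3.mono' ((Gf_meas hm R h B).mul (by fun_prop)).aestronglyMeasurable
      (Eventually.of_forall fun x => ?_)
    rw [Real.norm_eq_abs, abs_of_nonneg (mul_nonneg (hG0 x) (hx2 x))]
    exact hpt x
  refine ⟨hint, ?_⟩
  have j1 : ∫ x, Φ (x - h) = ∫ x, Φ x := integral_sub_right_eq_self Φ h
  have j2 : ∫ x, Φ (-x - h) = ∫ x, Φ x := by
    rw [← j1]
    exact integral_neg_eq_self (fun x => Φ (x - h)) volume
  have i4 : Integrable fun x => Q ^ (2 * k) * (Φ (x - h) + Φ (-x - h)) := (i1.add i2).const_mul _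
  calc ∫ x, Gf E R h B x * x ^ (2 * k) ≤
        ∫ x, (Q ^ (2 * k) * (Φ (x - h) + Φ (-x - h)) + Ψ x) := integral_mono hint i3 hpt
    _ = Q ^ (2 * k) * ((∫ x, Φ (x - h)) + ∫ x, Φ (-x - h)) + ∫ x, Ψ x := by
        rw [integral_add i4 hΨi, integral_const_mul, integral_add i1 i2]
    _ = _ := by
        rw [j1, j2, hΨint, hΦint]
        ring

/-- Carleman's condition for the bound on the whole line -/
lemma Gf_carl {E : ℝ → ℝ} (hE : Carl E) {a h B : ℝ} (ha : 0 < a) (hh : 0 < h) (hB : 0 < B) :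
    ¬ Summable fun k : ℕ =>
      (∫ x, Gf E (a + h) h B x * x ^ (2 * (k + 1))) ^ (-((2 * ((k : ℝ) + 1))⁻¹)) := by
  have hm := hE.1
  have h0 := hE.2.1
  refine carl_transfer (Q := 1 + h / a) (R := a + h) (B := 2 * (a + h) * B)
    (e := fun k => ∫ x in Set.Ioi (0 : ℝ), x ^ (2 * (k + 1)) * E x) ?_ (by positivity)
    (by positivity) (fun k => ?_) (fun k => (Gf_mom hE ha hh hB (k + 1)).2) hE.2.2.2
    (fun k => ?_)
  · have : 0 ≤ h / a := by positivity
    linarith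
  · -- positivity
    have hi := (Gf_mom hE ha hh hB (k + 1)).1
    have hnn : ∀ x, 0 ≤ Gf E (a + h) h B x * x ^ (2 * (k + 1)) := fun x =>
      mul_nonneg (Gf_nonneg h0 _ _ hB.le x) (by rw [pow_mul]; positivity)
    have h1 : 0 ≤ ∫ x, Gf E (a + h) h B x * x ^ (2 * (k + 1)) := integral_nonneg hnn
    refine lt_of_le_of_ne h1 fun h2 => ?_
    have h3 := (integral_eq_zero_iff_of_nonneg hnn hi).1 h2.symm
    have h4 : ∃ᵐ z : ℝ, z ∈ Set.Ioo 0 (a + h) := by
      intro h3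
      have : volume (Set.Ioo 0 (a + h)) = 0 := by
        rw [ae_iff] at h3
        refine measure_mono_null (fun z hz => ?_) h3
        show ¬ ¬ _
        exact not_not.2 hz
      rw [Real.volume_Ioo, ENNReal.ofReal_eq_zero] at this
      linarith
    obtain ⟨z, hz1, hz2⟩ := (h4.and_eventually h3).exists
    have h5 : Gf E (a + h) h B z * z ^ (2 * (k + 1)) = 0 := hz2
    unfold Gf at h5
    rw [if_neg (by rw [abs_of_pos hz1.1]; linarith [hz1.2])] at h5
    have := hz1.1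
    have h6 : 0 < B * z ^ (2 * (k + 1)) := by positivity
    linarith
  · exact setIntegral_nonneg measurableSet_Ioi fun x _ =>
      mul_nonneg (by rw [pow_mul]; positivity) (h0 x)

end Pool.Agent.U507.FW
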