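import Pool.Agent.Y744.PCR.Win
import Pool.Agent.U507.FW.HPG
import Pool.Agent.U507.FW.Tr

/-! The criterion with errors in Carleman's class. -/

set_option autoImplicit false

open MeasureTheory Filter Topology Real

namespace Pool.Agent.U507.FW

open Pool.Agent.Y744

/-- translation of almost everywhere statements -/
lemma ae_tr {P : ℝ → Prop} (c : ℝ) (h : ∀ᵐ x, P x) : ∀ᵐ x, P (x - c) := by
  have := (measurePreserving_sub_right (volume : Measure ℝ) c).quasiMeasurePreserving.ae h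
  exact this

lemma ae_neg {P : ℝ → Prop} (h : ∀ᵐ x, P x) : ∀ᵐ x, P (-x) :=
  (Measure.measurePreserving_neg (volume : Measure ℝ)).quasiMeasurePreserving.ae h

/-- the one sided condition for the limit -/
lemma cond_lim {A : ℝ → ℝ → ℝ} {T0 : ℝ} {W : ℝ → ℝ → ℝ → ℝ}
    (hW1 : ∀ T, T0 ≤ T → ∀ a ℓ, 0 < a → 0 < ℓ → A T (a + ℓ) - A T a ≤ W T a ℓ)
    (hW2 : ∀ T, T0 ≤ T → ∀ a ℓ η, 0 < a → 0 < ℓ → 0 < η → W T a ℓ ≤ A T (a + ℓ) - A T (a - η))
    {u : Filter ℝ} [NeBot u] (hu : u ≤ atTop) {A' : ℝ → ℝ} (hA' : Monotone A')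
    (hlim : ∀ y, Tendsto (fun T => A T y) u (𝓝 (A' y))) {ℓ s a0 : ℝ} (hℓ : 0 < ℓ)
    (hs : s = 1 ∨ s = -1) (ha0 : 0 < a0) {E : ℝ → ℝ}
    (hyp : ∀ᵐ a, a0 ≤ a → ∀ ε, 0 < ε → ∀ᶠ T in u,
      -E a - ε ≤ s * (W T a ℓ - 2 * (gp (a + ℓ) - gp a))) :
    ∀ᵐ a, a0 ≤ a → -E a ≤ s * (A' (a + ℓ) - A' a - 2 * (gp (a + ℓ) - gp a)) := by
  have hcont : ∀ᵐ a : ℝ, ContinuousAt A' a := by
    have := hA'.countable_not_continuousAt
    exact this.ae_notMem volume |>.mono fun x hx => by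
      by_contra hc
      exact hx hc
  filter_upwards [hyp, hcont] with a hypa hca ha
  have hapos : 0 < a := lt_of_lt_of_le ha0 ha
  have hT : ∀ᶠ T in u, T0 ≤ T := hu (eventually_ge_atTop _)
  rcases hs with rfl | rfl
  · refine le_of_forall_pos_le_add fun ε hε => ?_
    have h1 : ∀ᶠ z in 𝓝 a, A' a - ε / 2 < A' z := hca.eventually_const_lt (by linarith)
    obtain ⟨δ, hδ, h2⟩ := Metric.eventually_nhds_iff.1 h1
    have h3 := h2 (show dist (a - δ / 2) a < δ by rw [Real.dist_eq, abs_lt]; constructor <;> linarith)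
    have h4 : ∀ᶠ T in u, -E a - ε / 2 ≤
        A T (a + ℓ) - A T (a - δ / 2) - 2 * (gp (a + ℓ) - gp a) := by
      filter_upwards [hT, hypa ha (ε / 2) (by positivity)] with T hT1 hT2
      have := hW2 T hT1 a ℓ (δ / 2) hapos hℓ (by positivity)
      linarith
    have h5 : Tendsto (fun T => A T (a + ℓ) - A T (a - δ / 2) - 2 * (gp (a + ℓ) - gp a)) u
        (𝓝 (A' (a + ℓ) - A' (a - δ / 2) - 2 * (gp (a + ℓ) - gp a))) :=
      ((hlim _).sub (hlim _)).sub_const _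
    have h6 := ge_of_tendsto h5 h4
    linarith
  · refine le_of_forall_pos_le_add fun ε hε => ?_
    have h4 : ∀ᶠ T in u, -E a - ε ≤
        -1 * (A T (a + ℓ) - A T a - 2 * (gp (a + ℓ) - gp a)) := by
      filter_upwards [hT, hypa ha ε hε] with T hT1 hT2
      have := hW1 T hT1 a ℓ hapos hℓ
      linarith
    have h5 : Tendsto (fun T => -1 * (A T (a + ℓ) - A T a - 2 * (gp (a + ℓ) - gp a))) u
        (𝓝 (-1 * (A' (a + ℓ) - A' a - 2 * (gp (a + ℓ) - gp a)))) :=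
      (((hlim _).sub (hlim _)).sub_const _).const_mul _
    have h6 := ge_of_tendsto h5 h4
    linarith

/-- a one sided error in Carleman's class for the windows of length `ℓ` forces periodicity -/
lemma periodic {A' : ℝ → ℝ} {C0 κ : ℝ} (hκ : 0 < κ) (hA' : Monotone A')
    (hneg : ∀ y, y < 0 → A' y = 0) (hb : ∀ y, |A' y| ≤ C0 * (1 + y ^ 2))
    (hm : ∀ K, TK κ K → ∀ h, 0 < h →
      ∫ y, A' y * (ct K (y + h) - ct K (y - h)) = ∫ y, AG y * (ct K (y + h) - ct K (y - h)))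
    {ℓ s a0 : ℝ} (hℓ : 0 < ℓ) (hs : s = 1 ∨ s = -1) (ha0 : 0 < a0) {E : ℝ → ℝ} (hE : Carl E)
    (hyp : ∀ᵐ a, a0 ≤ a → -E a ≤ s * (A' (a + ℓ) - A' a - 2 * (gp (a + ℓ) - gp a))) :
    ∀ᵐ x, dE A' (x + ℓ) = dE A' x := by
  set h : ℝ := ℓ / 2 with hh
  have hh0 : 0 < h := by rw [hh]; positivity
  have hEm := dE_meas hA'
  have hEb := dE_bound hb
  have hC0 : 0 ≤ C0 := by
    have := (abs_nonneg _).trans (hb 0)
    simpa using this
  set H : ℝ → ℝ := fun y => s * (dE A' (y + h) - dE A' (y - h)) with hH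
  have hs1 : |s| = 1 := by rcases hs with rfl | rfl <;> simp
  have hHm : Measurable H := by
    exact measurable_const.mul ((hEm.comp (by fun_prop)).sub (hEm.comp (by fun_prop)))
  have hHe : ∀ y, H (-y) = H y := by
    intro y
    simp only [hH]
    have a1 : dE A' (-y + h) = -dE A' (y - h) := by
      rw [← dE_odd]
      congr 1
      ring
    have a2 : dE A' (-y - h) = -dE A' (y + h) := by
      rw [← dE_odd]
      congr 1
      ring
    rw [a1, a2]
    ring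
  set B : ℝ := (2 * C0 + 4) * (4 * (1 + h ^ 2)) with hB
  have hB0 : 0 < B := by rw [hB]; positivity
  have hHb : ∀ y, |H y| ≤ B * (1 + y ^ 2) := by
    intro y
    simp only [hH]
    rw [abs_mul, hs1, one_mul]
    refine (abs_sub _ _).trans ?_
    have h1 := hEb (y + h)
    have h2 := hEb (y - h)
    have h3 : 1 + (y + h) ^ 2 ≤ 2 * (1 + h ^ 2) * (1 + y ^ 2) := by
      nlinarith [sq_nonneg (y - h), sq_nonneg (y * h), sq_nonneg y, sq_nonneg h]
    have h4 : 1 + (y - h) ^ 2 ≤ 2 * (1 + h ^ 2) * (1 + y ^ 2) := by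
      nlinarith [sq_nonneg (y + h), sq_nonneg (y * h), sq_nonneg y, sq_nonneg h]
    have h5 : (2 * C0 + 4) * (1 + (y + h) ^ 2) ≤ (2 * C0 + 4) * (2 * (1 + h ^ 2) * (1 + y ^ 2)) :=
      mul_le_mul_of_nonneg_left h3 (by positivity)
    have h6 : (2 * C0 + 4) * (1 + (y - h) ^ 2) ≤ (2 * C0 + 4) * (2 * (1 + h ^ 2) * (1 + y ^ 2)) :=
      mul_le_mul_of_nonneg_left h4 (by positivity)
    rw [hB]
    linarith
  set R : ℝ := a0 + h with hR
  have hR0 : 0 < R := by rw [hR]; positivity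
  set B1 : ℝ := B * (1 + R ^ 2) with hB1
  have hB10 : 0 < B1 := by rw [hB1]; positivity
  have hlow0 : ∀ y, R ≤ y →
      (a0 ≤ y - h → -E (y - h) ≤ s * (A' (y - h + ℓ) - A' (y - h) -
        2 * (gp (y - h + ℓ) - gp (y - h)))) → -E (y - h) ≤ H y := by
    intro y hy hy2
    have ha : a0 ≤ y - h := by linarith
    have h1 := hy2 ha
    have e1 : y - h + ℓ = y + h := by rw [hh]; ring
    rw [e1] at h1
    have e2 : H y = s * (A' (y + h) - A' (y - h) - 2 * (gp (y + h) - gp (y - h))) := by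
      simp only [hH]
      rw [dE_pos hneg (by linarith : 0 < y + h), dE_pos hneg (by linarith : 0 < y - h)]
      unfold AG
      rw [if_neg (by linarith), if_neg (by linarith)]
      ring
    rw [e2]
    exact h1
  have hlow : ∀ᵐ y, -(Gf E R h B1 y) ≤ H y := by
    have t1 := ae_tr h hyp
    have t2 := ae_neg t1
    filter_upwards [t1, t2] with y hy1 hy2
    unfold Gf
    split_ifs with hyR
    · rcases abs_cases y with ⟨h2, _⟩ | ⟨h2, _⟩
      · rw [h2] at hyR ⊢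
        exact hlow0 y hyR hy1
      · rw [h2] at hyR ⊢
        have := hlow0 (-y) hyR hy2
        rwa [hHe] at this
    · push Not at hyR
      have h1 := neg_abs_le (H y)
      have h2 := hHb y
      have h3 : B * (1 + y ^ 2) ≤ B * (1 + R ^ 2) := by
        refine mul_le_mul_of_nonneg_left ?_ hB0.le
        have : y ^ 2 ≤ R ^ 2 := by
          rw [← sq_abs]
          exact pow_le_pow_left₀ (abs_nonneg _) hyR.le 2
        linarith
      rw [hB1]
      linarith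
  have hz : ∀ K, TK κ K → ∫ y, H y * ct K y = 0 := by
    intro K hK
    have h1 := annih hK hA' hb h (hm K hK h hh0)
    have h2 : ∫ y, H y * ct K y = s * ∫ y, (dE A' (y + h) - dE A' (y - h)) * ct K y := by
      rw [← integral_const_mul]
      refine integral_congr_ae (Eventually.of_forall fun y => ?_)
      show s * (dE A' (y + h) - dE A' (y - h)) * ct K y = _
      ring
    rw [h2, h1, mul_zero]
  have hfin := high_pass hκ hHm hHe hHb (Gf_meas hE.1 R h B1) (Gf_nonneg hE.2.1 R h hB10.le)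
    (fun k => (Gf_mom hE ha0 hh0 hB10 k).1) (Gf_carl hE ha0 hh0 hB10) hlow hz
  have h1 : ∀ᵐ y, dE A' (y + h) = dE A' (y - h) := by
    filter_upwards [hfin] with y hy
    have hs0 : s ≠ 0 := by rcases hs with rfl | rfl <;> norm_num
    have := (mul_eq_zero.1 hy).resolve_left hs0
    linarith
  have h2 := (measurePreserving_add_right (volume : Measure ℝ) h).quasiMeasurePreserving.ae h1
  filter_upwards [h2] with x hx
  have e1 : x + h + h = x + ℓ := by rw [hh]; ring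
  have e2 : x + h - h = x := by ring
  rw [e1, e2] at hx
  exact hx

/-- one sided bound for the windows of length `ℓ` -/
def OneC (l : Filter ℝ) (ℓ s : ℝ) : Prop := ∃ (E : ℝ → ℝ) (a0 : ℝ), Carl E ∧ 0 < a0 ∧
  ∀ᵐ a, a0 ≤ a → ∀ ε, 0 < ε → ∀ᶠ T in l, s * (Nr T a (a + ℓ) - (gp (a + ℓ) - gp a)) ≤ E a + ε

lemma carl_two {E : ℝ → ℝ} (hE : Carl E) : Carl fun x => 2 * E x := by
  obtain ⟨h1, h2, h3, h4⟩ := hE
  refine ⟨h1.const_mul 2, fun x => by have := h2 x; linarith, fun k => ?_, ?_⟩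
  · have := (h3 k).const_mul 2
    refine Integrable.congr this (Eventually.of_forall fun x => ?_)
    show 2 * (x ^ k * E x) = x ^ k * (2 * E x)
    ring
  · intro hs
    refine h4 ?_
    refine Summable.of_nonneg_of_le (fun k => Real.rpow_nonneg (setIntegral_nonneg
      measurableSet_Ioi fun x _ => mul_nonneg (by rw [pow_mul]; positivity) (h2 x)) _)
      (fun k => ?_) (hs.mul_left 2)
    have e : ∫ x in Set.Ioi (0 : ℝ), x ^ (2 * (k + 1)) * (2 * E x) =
        2 * ∫ x in Set.Ioi (0 : ℝ), x ^ (2 * (k + 1)) * E x := by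
      rw [← integral_const_mul]
      refine setIntegral_congr_fun measurableSet_Ioi fun x _ => ?_
      show x ^ (2 * (k + 1)) * (2 * E x) = 2 * (x ^ (2 * (k + 1)) * E x)
      ring
    rw [e]
    have h0 : 0 ≤ ∫ x in Set.Ioi (0 : ℝ), x ^ (2 * (k + 1)) * E x :=
      setIntegral_nonneg measurableSet_Ioi fun x _ => mul_nonneg (by rw [pow_mul]; positivity) (h2 x)
    rw [Real.mul_rpow (by norm_num) h0]
    have h5 : (1 : ℝ) / 2 ≤ (2 : ℝ) ^ (-((2 * ((k : ℝ) + 1))⁻¹)) := by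
      have h4 : (2 : ℝ) ^ (-1 : ℝ) ≤ (2 : ℝ) ^ (-((2 * ((k : ℝ) + 1))⁻¹)) := by
        refine Real.rpow_le_rpow_of_exponent_le (by norm_num) ?_
        have : (2 * ((k : ℝ) + 1))⁻¹ ≤ 1 := inv_le_one_of_one_le₀ (by
          have : (0 : ℝ) ≤ k := Nat.cast_nonneg k
          linarith)
        linarith
      rw [Real.rpow_neg_one] at h4
      linarith
    have h6 : 0 ≤ (∫ x in Set.Ioi (0 : ℝ), x ^ (2 * (k + 1)) * E x) ^
      (-((2 * ((k : ℝ) + 1))⁻¹)) := Real.rpow_nonneg h0 _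
    nlinarith

/-- periodicity of the limit along an ultrafilter -/
lemma lim_periodic {g : Ultrafilter ℝ} (hgt : (g : Filter ℝ) ≤ atTop) {A' : ℝ → ℝ} {C0 : ℝ}
    (hA' : Monotone A') (hneg : ∀ y, y < 0 → A' y = 0) (hb : ∀ y, |A' y| ≤ C0 * (1 + y ^ 2))
    (hlim : ∀ y, Tendsto (fun T => Aa T y) (g : Filter ℝ) (𝓝 (A' y)))
    (hm : ∀ K, TK (1 / 2) K → ∀ h, 0 < h →
      ∫ y, A' y * (ct K (y + h) - ct K (y - h)) = ∫ y, AG y * (ct K (y + h) - ct K (y - h)))
    {ℓ s : ℝ} (hℓ : 0 < ℓ) (hs : s = 1 ∨ s = -1) (hC : OneC (g : Filter ℝ) ℓ s) :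
    ∀ᵐ x, dE A' (x + ℓ) = dE A' x := by
  obtain ⟨E, a0, hE, ha0, h1⟩ := hC
  have hs' : -s = 1 ∨ -s = -1 := by
    rcases hs with rfl | rfl
    · right; rfl
    · left; norm_num
  have h2 : ∀ᵐ a, a0 ≤ a → ∀ ε, 0 < ε → ∀ᶠ T in (g : Filter ℝ),
      -(2 * E a) - ε ≤ -s * (Ww T a ℓ - 2 * (gp (a + ℓ) - gp a)) := by
    filter_upwards [h1] with a h1 ha ε hε
    filter_upwards [h1 ha (ε / 2) (by positivity)] with T hT
    rw [Ww_eq (by linarith)]
    nlinarith
  have c1 := cond_lim (T0 := 2) (W := Ww) (E := fun a => 2 * E a)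
    (fun T hT a ℓ ha hℓ => Ww_lower (by linarith))
    (fun T hT a ℓ η ha hℓ hη => Ww_upper (by linarith) hη hℓ) hgt hA' hlim hℓ hs' ha0 h2
  exact periodic (κ := 1 / 2) (by norm_num) hA' hneg hb hm hℓ hs' ha0 (carl_two hE) c1

lemma OneC.mono {l l' : Filter ℝ} (h : l' ≤ l) {ℓ s : ℝ} (hC : OneC l ℓ s) : OneC l' ℓ s := by
  obtain ⟨E, a0, hE, ha0, h1⟩ := hC
  refine ⟨E, a0, hE, ha0, ?_⟩
  filter_upwards [h1] with a h1 ha ε hε using h (h1 ha ε hε)

/-- **two lengths** -/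
theorem rigid_C (RH : RiemannHypothesis) {l : Filter ℝ} (hl : l ≤ atTop) {l1 l2 s1 s2 : ℝ}
    (hl1 : 0 < l1) (hl2 : 0 < l2) (hirr : Irrational (l1 / l2)) (hs1 : s1 = 1 ∨ s1 = -1)
    (hs2 : s2 = 1 ∨ s2 = -1) (h1 : OneC l l1 s1) (h2 : OneC l l2 s2) (x : ℝ) :
    Tendsto (fun T => Aa T x) l (𝓝 (AG x)) := by
  rw [tendsto_iff_ultrafilter]
  intro g hg
  have hgt : (g : Filter ℝ) ≤ atTop := hg.trans hl
  obtain ⟨A', C0, hA', hneg, hb, h0, hlim, hm⟩ := exists_limit RH g hgt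
  have p1 := lim_periodic hgt hA' hneg hb hlim hm hl1 hs1 (h1.mono hg)
  have p2 := lim_periodic hgt hA' hneg hb hlim hm hl2 hs2 (h2.mono hg)
  have := limit_eq hA' hneg hb h0 hirr p1 p2 x
  rw [← this]
  exact hlim x

/-- **one length** -/
theorem one_C (RH : RiemannHypothesis) {l : Filter ℝ} (hl : l ≤ atTop) {ℓ s : ℝ}
    (hℓ : 0 < ℓ) (hs : s = 1 ∨ s = -1) (h : OneC l ℓ s) {α β : ℝ} (hαβ : α < β) {ε : ℝ}
    (hε : 0 < ε) : ∀ᶠ T in l, |Nr T α β - pr α β| ≤ π ^ 2 / 9 * ℓ ^ 3 + ε := by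
  have h3 : ∀ x ε, 0 < ε → ∀ᶠ T in l, |Aa T x - AG x| ≤ Me ℓ + ε := by
    intro x ε hε
    have key : {T | |Aa T x - AG x| ≤ Me ℓ + ε} ∈ l := by
      rw [Filter.mem_iff_ultrafilter]
      intro g hg
      have hgt : (g : Filter ℝ) ≤ atTop := hg.trans hl
      obtain ⟨A', C0, hA', hneg, hb, h0, hlim, hm⟩ := exists_limit RH g hgt
      have p1 := lim_periodic hgt hA' hneg hb hlim hm hℓ hs (h.mono hg)
      have h1 := single_all hA' hneg h0 hℓ p1 x
      have h2 : Tendsto (fun T => |Aa T x - AG x|) (g : Filter ℝ) (𝓝 |A' x - AG x|) :=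
        ((hlim x).sub_const _).abs
      have h3 : ∀ᶠ T in (g : Filter ℝ), |Aa T x - AG x| < Me ℓ + ε :=
        (tendsto_order.1 h2).2 _ (by linarith)
      exact h3.mono fun T hT => le_of_lt hT
    exact key
  filter_upwards [Nr_close hl h3 hαβ hε] with T hT
  have := Me_le hℓ
  linarith

end Pool.Agent.U507.FW
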