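import Pool.Agent.U507.FW.Cls

/-! `C exp (-c x / log (x+2))` has moments satisfying Carleman's condition. -/

set_option autoImplicit false

open MeasureTheory Filter Topology

namespace Pool.Agent.U507.FW

lemma log_two_pos' {x : ℝ} (hx : 0 ≤ x) : 0 < Real.log (x + 2) := Real.log_pos (by linarith)

/-- the auxiliary majorant -/
noncomputable def Psi (c x : ℝ) : ℝ :=
  Real.exp ((x + 2) ^ ((1 : ℝ) / 4) * Real.log (x + 2) - c * x / Real.log (x + 2))

lemma Psi_int {c : ℝ} (hc : 0 < c) : IntegrableOn (Psi c) (Set.Ioi 0) := by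
  have hcont : ContinuousOn (Psi c) (Set.Ici 0) := by
    unfold Psi
    have h1 : ContinuousOn (fun x : ℝ => Real.log (x + 2)) (Set.Ici 0) :=
      ContinuousOn.log (by fun_prop) fun x hx => by
        have : (0 : ℝ) ≤ x := hx
        linarith
    have h2 : ContinuousOn (fun x : ℝ => (x + 2) ^ ((1 : ℝ) / 4)) (Set.Ici 0) :=
      ContinuousOn.rpow_const (by fun_prop) fun x hx => Or.inr (by norm_num)
    refine (((h2.mul h1).sub ((continuousOn_const.mul continuousOn_id).div h1
      fun x hx => (log_two_pos' hx).ne'))).rexp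
  have hev : ∀ᶠ x : ℝ in atTop, Psi c x ≤ x ^ (-2 : ℝ) := by
    have h1 : ∀ᶠ x : ℝ in atTop, 384 / c ≤ x ^ ((1 : ℝ) / 2) :=
      (tendsto_rpow_atTop (by norm_num)).eventually_ge_atTop _
    filter_upwards [h1, eventually_ge_atTop (2 : ℝ)] with x hx hx2
    have hx0 : 0 < x := by linarith
    set y := x + 2 with hy
    have hy0 : 0 < y := by linarith
    have hy1 : 1 ≤ y := by linarith
    have hxy : x ≤ y := by linarith
    have hyx : y ≤ 2 * x := by linarith
    have hL : 0 < Real.log y := log_two_pos' hx0.le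
    have b1 : Real.log y ≤ 8 * y ^ ((1 : ℝ) / 8) := by
      have := Real.log_le_rpow_div hy0.le (ε := (1 : ℝ) / 8) (by norm_num)
      refine this.trans (le_of_eq ?_)
      ring
    have b2 : y ^ ((1 : ℝ) / 4) * Real.log y ≤ 8 * y ^ ((3 : ℝ) / 8) := by
      have e : y ^ ((3 : ℝ) / 8) = y ^ ((1 : ℝ) / 4) * y ^ ((1 : ℝ) / 8) := by
        rw [← Real.rpow_add hy0]
        norm_num
      rw [e]
      have := mul_le_mul_of_nonneg_left b1 (Real.rpow_nonneg hy0.le ((1 : ℝ) / 4))
      linarith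
    have b3 : c / 16 * y ^ ((7 : ℝ) / 8) ≤ c * x / Real.log y := by
      have h2 : 0 < y ^ ((1 : ℝ) / 8) := Real.rpow_pos_of_pos hy0 _
      have e : y ^ ((7 : ℝ) / 8) = y / y ^ ((1 : ℝ) / 8) := by
        rw [eq_div_iff h2.ne', ← Real.rpow_add hy0]
        norm_num
      rw [e, le_div_iff₀ hL]
      have h3 : c / 16 * (y / y ^ ((1 : ℝ) / 8)) * Real.log y ≤
          c / 16 * (y / y ^ ((1 : ℝ) / 8)) * (8 * y ^ ((1 : ℝ) / 8)) :=
        mul_le_mul_of_nonneg_left b1 (by positivity)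
      have h4 : c / 16 * (y / y ^ ((1 : ℝ) / 8)) * (8 * y ^ ((1 : ℝ) / 8)) = c / 2 * y := by
        field_simp
        ring
      nlinarith
    have b4 : 2 * Real.log x ≤ 16 * y ^ ((3 : ℝ) / 8) := by
      have h2 : Real.log x ≤ Real.log y := Real.log_le_log hx0 hxy
      have h3 : y ^ ((1 : ℝ) / 8) ≤ y ^ ((3 : ℝ) / 8) :=
        Real.rpow_le_rpow_of_exponent_le hy1 (by norm_num)
      linarith
    have b5 : 24 * y ^ ((3 : ℝ) / 8) ≤ c / 16 * y ^ ((7 : ℝ) / 8) := by
      have e : y ^ ((7 : ℝ) / 8) = y ^ ((3 : ℝ) / 8) * y ^ ((1 : ℝ) / 2) := by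
        rw [← Real.rpow_add hy0]
        norm_num
      have h2 : x ^ ((1 : ℝ) / 2) ≤ y ^ ((1 : ℝ) / 2) :=
        Real.rpow_le_rpow hx0.le hxy (by norm_num)
      have h3 : 384 / c ≤ y ^ ((1 : ℝ) / 2) := hx.trans h2
      rw [div_le_iff₀ hc] at h3
      have h4 : 0 < y ^ ((3 : ℝ) / 8) := Real.rpow_pos_of_pos hy0 _
      rw [e]
      nlinarith
    have b6 : y ^ ((1 : ℝ) / 4) * Real.log y - c * x / Real.log y ≤ -2 * Real.log x := by
      linarith
    unfold Psi
    rw [← hy]
    have e : x ^ (-2 : ℝ) = Real.exp (-2 * Real.log x) := by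
      rw [Real.rpow_def_of_pos hx0, mul_comm]
    rw [e]
    exact Real.exp_le_exp.2 b6
  have hO : Psi c =O[atTop] fun x : ℝ => x ^ (-2 : ℝ) := by
    refine Asymptotics.IsBigO.of_bound 1 ?_
    filter_upwards [hev, eventually_gt_atTop (0 : ℝ)] with x hx hx0
    rw [one_mul, Real.norm_eq_abs, Real.norm_eq_abs, abs_of_pos (by unfold Psi; positivity),
      abs_of_pos (Real.rpow_pos_of_pos hx0 _)]
    exact hx
  have h1 := (hcont.locallyIntegrableOn (μ := volume) measurableSet_Ici).integrableOn_of_isBigO_atTop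
    hO (integrableAtFilter_rpow_atTop_iff.2 (by norm_num))
  exact h1.mono_set Set.Ioi_subset_Ici_self

/-- the pointwise bound -/
lemma pt_bound {c : ℝ} (hc : 0 < c) (n : ℕ) {x : ℝ} (hx : 0 < x) :
    x ^ n * Real.exp (-(c * x / Real.log (x + 2))) ≤
      x ^ n * Real.exp (-(c / (4 * Real.log (n + 2)) * x)) + Psi c x := by
  have hL : 0 < Real.log (x + 2) := log_two_pos' hx.le
  have hn : (0 : ℝ) ≤ n := Nat.cast_nonneg n
  have hLn : 0 < Real.log ((n : ℝ) + 2) := log_two_pos' hn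
  have hP : 0 < Psi c x := by unfold Psi; positivity
  rcases le_or_gt (Real.log (x + 2)) (4 * Real.log (n + 2)) with h | h
  · have h1 : c / (4 * Real.log (n + 2)) * x ≤ c * x / Real.log (x + 2) := by
      rw [div_mul_eq_mul_div]
      exact div_le_div_of_nonneg_left (by positivity) hL h
    have h2 : Real.exp (-(c * x / Real.log (x + 2))) ≤
        Real.exp (-(c / (4 * Real.log (n + 2)) * x)) := Real.exp_le_exp.2 (by linarith)
    have h3 := mul_le_mul_of_nonneg_left h2 (by positivity : 0 ≤ x ^ n)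
    linarith
  · have h1 : (n : ℝ) ≤ (x + 2) ^ ((1 : ℝ) / 4) := by
      have h2 : Real.log ((n : ℝ) + 2) < Real.log ((x + 2) ^ ((1 : ℝ) / 4)) := by
        rw [Real.log_rpow (by linarith)]
        linarith
      have h3 := (Real.log_lt_log_iff (by linarith)
        (Real.rpow_pos_of_pos (by linarith) _)).1 h2
      linarith
    have h2 : x ^ n ≤ Real.exp ((x + 2) ^ ((1 : ℝ) / 4) * Real.log (x + 2)) := by
      calc x ^ n ≤ (x + 2) ^ n := pow_le_pow_left₀ hx.le (by linarith) n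
        _ = Real.exp (n * Real.log (x + 2)) := by
            rw [Real.exp_nat_mul, Real.exp_log (by linarith)]
        _ ≤ _ := Real.exp_le_exp.2 (mul_le_mul_of_nonneg_right h1 hL.le)
    have h3 : x ^ n * Real.exp (-(c * x / Real.log (x + 2))) ≤ Psi c x := by
      unfold Psi
      rw [sub_eq_add_neg, Real.exp_add]
      exact mul_le_mul_of_nonneg_right h2 (Real.exp_pos _).le
    have h4 : 0 ≤ x ^ n * Real.exp (-(c / (4 * Real.log (n + 2)) * x)) := by positivity
    linarith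

lemma gam_int {r : ℝ} (hr : 0 < r) (n : ℕ) :
    IntegrableOn (fun x : ℝ => x ^ n * Real.exp (-(r * x))) (Set.Ioi 0) ∧
      ∫ x in Set.Ioi (0 : ℝ), x ^ n * Real.exp (-(r * x)) = n.factorial * (1 / r) ^ (n + 1) := by
  have hn : (0 : ℝ) ≤ n := Nat.cast_nonneg n
  constructor
  · have h1 := integrableOn_rpow_mul_exp_neg_mul_rpow (s := (n : ℝ)) (p := 1) (b := r)
      (by linarith) one_pos hr
    refine h1.congr_fun (fun x _ => ?_) measurableSet_Ioi
    show x ^ (n : ℝ) * Real.exp (-r * x ^ (1 : ℝ)) = x ^ n * Real.exp (-(r * x))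
    rw [Real.rpow_natCast, Real.rpow_one, neg_mul]
  · have h1 := Real.integral_rpow_mul_exp_neg_mul_Ioi (a := (n : ℝ) + 1) (r := r)
      (by linarith) hr
    rw [Real.Gamma_nat_eq_factorial] at h1
    rw [mul_comm ((n.factorial : ℝ)), ← Real.rpow_natCast (1 / r) (n + 1)]
    push_cast
    rw [← h1]
    refine setIntegral_congr_fun measurableSet_Ioi fun x _ => ?_
    show x ^ n * Real.exp (-(r * x)) = x ^ ((n : ℝ) + 1 - 1) * Real.exp (-(r * x))
    rw [add_sub_cancel_right, Real.rpow_natCast]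

/-- integrability and moments -/
lemma ex_mom {C c : ℝ} (hC : 0 < C) (hc : 0 < c) (n : ℕ) :
    IntegrableOn (fun x => x ^ n * (C * Real.exp (-(c * x / Real.log (x + 2))))) (Set.Ioi 0) ∧
      ∫ x in Set.Ioi (0 : ℝ), x ^ n * (C * Real.exp (-(c * x / Real.log (x + 2)))) ≤
        C * (n.factorial * (4 * Real.log (n + 2) / c) ^ (n + 1) + ∫ x in Set.Ioi 0, Psi c x) := by
  have hn : (0 : ℝ) ≤ n := Nat.cast_nonneg n
  have hLn : 0 < Real.log ((n : ℝ) + 2) := log_two_pos' hn
  obtain ⟨g1, g2⟩ := gam_int (r := c / (4 * Real.log (n + 2))) (by positivity) n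
  have hP := Psi_int hc
  have hs := (g1.add hP).const_mul C
  have hle : ∀ x ∈ Set.Ioi (0 : ℝ), x ^ n * (C * Real.exp (-(c * x / Real.log (x + 2)))) ≤
      C * (x ^ n * Real.exp (-(c / (4 * Real.log (n + 2)) * x)) + Psi c x) := by
    intro x hx
    have := mul_le_mul_of_nonneg_left (pt_bound hc n hx) hC.le
    linarith
  have hi : IntegrableOn (fun x => x ^ n * (C * Real.exp (-(c * x / Real.log (x + 2)))))
      (Set.Ioi 0) := by
    refine Integrable.mono' hs ?_ ?_
    · exact (by fun_prop : Measurable fun x : ℝ =>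
        x ^ n * (C * Real.exp (-(c * x / Real.log (x + 2))))).aestronglyMeasurable
    · refine (ae_restrict_mem measurableSet_Ioi).mono fun x hx => ?_
      have hx' : (0 : ℝ) < x := hx
      rw [Real.norm_eq_abs, abs_of_nonneg (by positivity)]
      exact hle x hx
  refine ⟨hi, ?_⟩
  have h1 : ∫ x in Set.Ioi (0 : ℝ), x ^ n * (C * Real.exp (-(c * x / Real.log (x + 2)))) ≤
      ∫ x in Set.Ioi (0 : ℝ),
        C * (x ^ n * Real.exp (-(c / (4 * Real.log (n + 2)) * x)) + Psi c x) :=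
    setIntegral_mono_on hi hs measurableSet_Ioi hle
  refine h1.trans (le_of_eq ?_)
  rw [integral_const_mul, integral_add g1 hP, g2]
  congr 3
  congr 1
  field_simp

lemma nsum : ¬ Summable fun k : ℕ => 1 / (((k : ℝ) + 1) * Real.log (k + 2)) := by
  rw [← summable_condensed_iff_of_nonneg (f := fun k : ℕ => 1 / (((k : ℝ) + 1) * Real.log (k + 2)))]
  · intro h
    have h1 : ¬ Summable fun k : ℕ => 1 / ((k + 2 : ℕ) : ℝ) := by
      intro h2
      exact Real.not_summable_one_div_natCast ((summable_nat_add_iff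
        (f := fun k : ℕ => 1 / (k : ℝ)) 2).1 h2)
    refine h1 (Summable.of_nonneg_of_le (fun k => by positivity) (fun k => ?_) (h.mul_left 2))
    have h2 : (0 : ℝ) < 2 ^ k := by positivity
    have h3 : (1 : ℝ) ≤ 2 ^ k := one_le_pow₀ (by norm_num)
    push_cast
    have hL : 0 < Real.log ((2 : ℝ) ^ k + 2) := log_two_pos' h2.le
    have h4 : Real.log ((2 : ℝ) ^ k + 2) ≤ k + 2 := by
      have h5 : (2 : ℝ) ^ k + 2 ≤ 2 ^ (k + 2) := by
        rw [pow_add]
        linarith
      have h6 := Real.log_le_log (by positivity) h5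
      rw [Real.log_pow] at h6
      push_cast at h6
      have h7 := Real.log_two_lt_d9
      have h8 : ((k : ℝ) + 2) * Real.log 2 ≤ ((k : ℝ) + 2) * 1 :=
        mul_le_mul_of_nonneg_left (by linarith) (by positivity)
      linarith
    have h5 : 2 * ((2 : ℝ) ^ k * (1 / (((2 : ℝ) ^ k + 1) * Real.log ((2 : ℝ) ^ k + 2)))) =
        (2 * 2 ^ k) / (((2 : ℝ) ^ k + 1) * Real.log ((2 : ℝ) ^ k + 2)) := by ring
    rw [h5, div_le_div_iff₀ (by positivity) (by positivity)]
    have h6 : ((2 : ℝ) ^ k + 1) * Real.log ((2 : ℝ) ^ k + 2) ≤ (2 * 2 ^ k) * (k + 2) :=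
      mul_le_mul (by linarith) h4 hL.le (by positivity)
    linarith
  · intro n
    have : 0 < Real.log ((n : ℝ) + 2) := log_two_pos' (Nat.cast_nonneg n)
    positivity
  · intro m n _ hmn
    have h1 : (m : ℝ) ≤ n := by exact_mod_cast hmn
    have h2 : (0 : ℝ) ≤ m := Nat.cast_nonneg m
    have hL : 0 < Real.log ((m : ℝ) + 2) := log_two_pos' h2
    refine one_div_le_one_div_of_le (by positivity) ?_
    exact mul_le_mul (by linarith) (Real.log_le_log (by linarith) (by linarith)) hL.le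
      (by linarith)

/-- **the example** -/
theorem carl_ex {C c : ℝ} (hC : 0 < C) (hc : 0 < c) :
    Carl fun x => C * Real.exp (-(c * x / Real.log (x + 2))) := by
  refine ⟨by fun_prop, fun x => by positivity, fun k => (ex_mom hC hc k).1, ?_⟩
  intro hs
  set K : ℝ := ∫ x in Set.Ioi 0, Psi c x with hK
  have hK0 : 0 ≤ K := setIntegral_nonneg measurableSet_Ioi fun x _ => by
    unfold Psi
    positivity
  set Q : ℝ := (C * (4 / c) + C * K + 1) * (8 / c + 1) with hQ
  have hQ0 : 0 < Q := by positivity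
  -- the moments
  have hmom : ∀ k : ℕ, (∫ x in Set.Ioi (0 : ℝ), x ^ (2 * (k + 1)) *
      (C * Real.exp (-(c * x / Real.log (x + 2))))) ≤
      (Q * ((2 * (k + 1) : ℕ) : ℝ) * Real.log (((2 * (k + 1) : ℕ) : ℝ) + 2)) ^ (2 * (k + 1)) := by
    intro k
    obtain ⟨m, hm⟩ : ∃ m, m = 2 * (k + 1) := ⟨_, rfl⟩
    rw [← hm]
    have hm2 : 2 ≤ m := by omega
    have hm2' : (2 : ℝ) ≤ m := by exact_mod_cast hm2
    refine (ex_mom hC hc m).2.trans ?_
    rw [← hK]
    set L := Real.log ((m : ℝ) + 2) with hL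
    have hL1 : 1 ≤ L := by
      have h1 : Real.exp 1 ≤ (m : ℝ) + 2 := by
        have := Real.exp_one_lt_d9
        linarith
      have := Real.log_le_log (Real.exp_pos 1) h1
      rwa [Real.log_exp] at this
    have hLm : L ≤ 2 ^ m := by
      have h1 : L ≤ (m : ℝ) + 1 := by
        have := Real.log_le_sub_one_of_pos (show (0 : ℝ) < (m : ℝ) + 2 by linarith)
        linarith
      have h2 : m + 1 ≤ 2 ^ m := Nat.succ_le_of_lt Nat.lt_two_pow_self
      have h3 : (m : ℝ) + 1 ≤ 2 ^ m := by exact_mod_cast h2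
      linarith
    have hfac : (m.factorial : ℝ) ≤ (m : ℝ) ^ m := by exact_mod_cast Nat.factorial_le_pow m
    have h1 : (m.factorial : ℝ) * (4 * L / c) ^ (m + 1) ≤
        4 / c * ((m : ℝ) * L * (8 / c)) ^ m := by
      calc (m.factorial : ℝ) * (4 * L / c) ^ (m + 1) ≤
            (m : ℝ) ^ m * (4 * L / c) ^ (m + 1) := mul_le_mul_of_nonneg_right hfac (by positivity)
        _ = 4 / c * ((m : ℝ) ^ m * (4 * L / c) ^ m) * L := by rw [pow_succ]; ring
        _ ≤ 4 / c * ((m : ℝ) ^ m * (4 * L / c) ^ m) * 2 ^ m :=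
            mul_le_mul_of_nonneg_left hLm (by positivity)
        _ = 4 / c * ((m : ℝ) * (4 * L / c) * 2) ^ m := by rw [mul_pow, mul_pow]; ring
        _ = 4 / c * ((m : ℝ) * L * (8 / c)) ^ m := by
            congr 2
            ring
    have h2 : ((m : ℝ) * L * (8 / c)) ^ m ≤ ((m : ℝ) * L * (8 / c + 1)) ^ m :=
      pow_le_pow_left₀ (by positivity) (mul_le_mul_of_nonneg_left (by linarith) (by positivity)) m
    have h3 : 1 ≤ ((m : ℝ) * L * (8 / c + 1)) ^ m := by
      refine one_le_pow₀ ?_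
      have h4 : 1 ≤ (m : ℝ) * L := by nlinarith
      have h5 : 1 ≤ 8 / c + 1 := by
        have : 0 < 8 / c := by positivity
        linarith
      nlinarith
    set Z := ((m : ℝ) * L * (8 / c + 1)) ^ m with hZ
    have h4 : C * (m.factorial * (4 * L / c) ^ (m + 1) + K) ≤ (C * (4 / c) + C * K + 1) * Z := by
      have h5 : (m.factorial : ℝ) * (4 * L / c) ^ (m + 1) ≤ 4 / c * Z :=
        h1.trans (mul_le_mul_of_nonneg_left h2 (by positivity))
      have h6 := mul_le_mul_of_nonneg_left h5 hC.le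
      have h7 : C * K * 1 ≤ C * K * Z := mul_le_mul_of_nonneg_left h3 (by positivity)
      nlinarith
    refine h4.trans ?_
    have h5 : (1 : ℝ) ≤ C * (4 / c) + C * K + 1 := by
      have : 0 ≤ C * (4 / c) + C * K := by positivity
      linarith
    have h6 : C * (4 / c) + C * K + 1 ≤ (C * (4 / c) + C * K + 1) ^ m :=
      le_self_pow₀ h5 (by omega)
    have h7 : 0 ≤ Z := by linarith
    calc (C * (4 / c) + C * K + 1) * Z ≤ (C * (4 / c) + C * K + 1) ^ m * Z :=
          mul_le_mul_of_nonneg_right h6 h7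
      _ = (Q * m * L) ^ m := by
          rw [hZ, ← mul_pow, hQ]
          congr 1
          ring
  have hpos : ∀ k : ℕ, 0 < ∫ x in Set.Ioi (0 : ℝ), x ^ (2 * (k + 1)) *
      (C * Real.exp (-(c * x / Real.log (x + 2)))) := by
    intro k
    rw [setIntegral_pos_iff_support_of_nonneg_ae
      ((ae_restrict_mem measurableSet_Ioi).mono fun x hx => by
        have hx' : (0 : ℝ) < x := hx
        show 0 ≤ x ^ (2 * (k + 1)) * (C * Real.exp (-(c * x / Real.log (x + 2))))
        positivity) (ex_mom hC hc (2 * (k + 1))).1]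
    have : (Function.support fun x : ℝ => x ^ (2 * (k + 1)) *
        (C * Real.exp (-(c * x / Real.log (x + 2))))) ∩ Set.Ioi 0 = Set.Ioi 0 := by
      refine Set.inter_eq_right.2 fun x hx => ?_
      have hx' : (0 : ℝ) < x := hx
      have : 0 < x ^ (2 * (k + 1)) * (C * Real.exp (-(c * x / Real.log (x + 2)))) := by positivity
      exact this.ne'
    rw [this]
    simp
  refine nsum (Summable.of_nonneg_of_le (fun k => ?_) (fun k => ?_) (hs.mul_left (4 * Q)))
  · have : 0 < Real.log ((k : ℝ) + 2) := log_two_pos' (Nat.cast_nonneg k)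
    positivity
  · have hk : (0 : ℝ) ≤ k := Nat.cast_nonneg k
    have hL : 0 < Real.log ((k : ℝ) + 2) := log_two_pos' hk
    have hcast : (2 * ((k : ℝ) + 1))⁻¹ = (((2 * (k + 1) : ℕ) : ℝ))⁻¹ := by
      push_cast
      rfl
    have hL2 : 0 < Real.log (((2 * (k + 1) : ℕ) : ℝ) + 2) := log_two_pos' (Nat.cast_nonneg _)
    have h1 : ((Q * ((2 * (k + 1) : ℕ) : ℝ) * Real.log (((2 * (k + 1) : ℕ) : ℝ) + 2)) ^
        (2 * (k + 1))) ^ (-((2 * ((k : ℝ) + 1))⁻¹)) ≤
        (∫ x in Set.Ioi (0 : ℝ), x ^ (2 * (k + 1)) *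
          (C * Real.exp (-(c * x / Real.log (x + 2))))) ^ (-((2 * ((k : ℝ) + 1))⁻¹)) :=
      Real.rpow_le_rpow_of_nonpos (hpos k) (hmom k) (by
        have : 0 ≤ (2 * ((k : ℝ) + 1))⁻¹ := by positivity
        linarith)
    have h2 : 0 < Q * ((2 * (k + 1) : ℕ) : ℝ) * Real.log (((2 * (k + 1) : ℕ) : ℝ) + 2) := by
      have : (0 : ℝ) < ((2 * (k + 1) : ℕ) : ℝ) := by positivity
      positivity
    rw [Real.rpow_neg (by positivity), hcast, Real.pow_rpow_inv_natCast h2.le (by omega)] at h1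
    rw [← hcast] at h1
    have h3 : Real.log (((2 * (k + 1) : ℕ) : ℝ) + 2) ≤ 2 * Real.log (k + 2) := by
      have h4 : (((2 * (k + 1) : ℕ) : ℝ) + 2) ≤ ((k : ℝ) + 2) ^ 2 := by
        push_cast
        nlinarith
      have h5 := Real.log_le_log (by positivity) h4
      rw [Real.log_pow] at h5
      exact_mod_cast h5
    have h4 : Q * ((2 * (k + 1) : ℕ) : ℝ) * Real.log (((2 * (k + 1) : ℕ) : ℝ) + 2) ≤
        4 * Q * (((k : ℝ) + 1) * Real.log (k + 2)) := by
      have h5 : Q * ((2 * (k + 1) : ℕ) : ℝ) * Real.log (((2 * (k + 1) : ℕ) : ℝ) + 2) ≤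
          Q * ((2 * (k + 1) : ℕ) : ℝ) * (2 * Real.log (k + 2)) :=
        mul_le_mul_of_nonneg_left h3 (by positivity)
      refine h5.trans (le_of_eq ?_)
      push_cast
      ring
    have h5 : (4 * Q * (((k : ℝ) + 1) * Real.log (k + 2)))⁻¹ ≤
        (Q * ((2 * (k + 1) : ℕ) : ℝ) * Real.log (((2 * (k + 1) : ℕ) : ℝ) + 2))⁻¹ :=
      inv_anti₀ h2 h4
    have h6 : 1 / (((k : ℝ) + 1) * Real.log (k + 2)) =
        4 * Q * (4 * Q * (((k : ℝ) + 1) * Real.log (k + 2)))⁻¹ := by
      field_simp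
    rw [h6]
    exact mul_le_mul_of_nonneg_left (h5.trans h1) (by positivity)

end Pool.Agent.U507.FW
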