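import Pool.Agent.Y744.PCR.Glue
import Pool.Agent.U507.FW.Crit
import Pool.Agent.U507.FW.Ex

/-! The final statements. -/

set_option autoImplicit false

open MeasureTheory Filter Topology

namespace Pool.Agent.U507.FW

open Pool.Agent.Y744 Pool.Agent.Y744.G

/-- compactness: a criterion valid along every filter gives finite certificates -/
lemma cert {A : ℝ} {Hy : ℝ → ℝ → ℝ → Prop}
    (hmono : ∀ a δ δ' T, δ ≤ δ' → Hy a δ T → Hy a δ' T) {concl : ℝ → Prop}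
    (h : ∀ l : Filter ℝ, l ≤ atTop → (∀ a, A ≤ a → ∀ δ, 0 < δ → ∀ᶠ T in l, Hy a δ T) →
      ∀ᶠ T in l, concl T) :
    ∃ (S : Finset ℝ) (δ T₀ : ℝ), (∀ a ∈ S, A ≤ a) ∧ 0 < δ ∧
      ∀ T, T₀ ≤ T → (∀ a ∈ S, Hy a δ T) → concl T := by
  classical
  by_contra hcon
  push Not at hcon
  have hch : ∀ p : Finset ℝ × ℕ, ∃ T : ℝ, (p.2 : ℝ) ≤ T ∧
      (∀ a ∈ p.1.filter (A ≤ ·), Hy a (1 / ((p.2 : ℝ) + 1)) T) ∧ ¬ concl T := fun p =>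
    hcon (p.1.filter (A ≤ ·)) (1 / ((p.2 : ℝ) + 1)) p.2
      (fun a ha => (Finset.mem_filter.1 ha).2) (by positivity)
  choose t ht1 ht2 ht3 using hch
  have hl : map t atTop ≤ (atTop : Filter ℝ) := by
    have h1 : Tendsto (fun p : Finset ℝ × ℕ => (p.2 : ℝ)) atTop atTop := by
      rw [← prod_atTop_atTop_eq]
      exact tendsto_natCast_atTop_atTop.comp tendsto_snd
    exact tendsto_atTop_mono ht1 h1
  have h2 := h (map t atTop) hl (fun a ha δ hδ => by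
    rw [eventually_map]
    obtain ⟨N, hN⟩ := exists_nat_one_div_lt hδ
    filter_upwards [eventually_ge_atTop (({a} : Finset ℝ), N)] with p hp
    have h3 : a ∈ p.1 := hp.1 (Finset.mem_singleton_self a)
    have h4 : (N : ℝ) ≤ p.2 := by exact_mod_cast hp.2
    refine hmono a _ _ _ ?_ (ht2 p a (Finset.mem_filter.2 ⟨h3, ha⟩))
    refine le_trans ?_ hN.le
    exact one_div_le_one_div_of_le (by positivity) (by linarith))
  rw [eventually_map] at h2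
  obtain ⟨p, hp⟩ := h2.exists
  exact ht3 p hp

/-- one sided bound for the windows of length `ℓ` -/
def OneSidedC (l : Filter ℝ) (ℓ s : ℝ) : Prop := ∃ (E : ℝ → ℝ) (A : ℝ), Carl E ∧ 0 < A ∧
  ∀ᵐ a, A ≤ a → ∀ ε : ℝ, 0 < ε → ∀ᶠ T in l, s * D T a (a + ℓ) ≤ E a + ε

lemma pr_pos {a ℓ : ℝ} (ha : 0 < a) : pr a (a + ℓ) = gp (a + ℓ) - gp a := by
  unfold pr
  rw [Set.indicator_of_notMem (by
    rintro ⟨h2, h3⟩
    linarith)]
  ring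

lemma One_iff' {l : Filter ℝ} (hl : l ≤ atTop) (ℓ s : ℝ) : OneSidedC l ℓ s ↔ OneC l ℓ s := by
  have hev : ∀ᶠ T in l, 1 < T := hl (eventually_gt_atTop 1)
  constructor
  · rintro ⟨E, A, hE, hA, h⟩
    refine ⟨E, A, hE, hA, ?_⟩
    filter_upwards [h] with a h ha ε hε
    filter_upwards [h ha ε hε, hev] with T h1 h2
    rwa [G.D_eq h2, pr_pos (by linarith)] at h1
  · rintro ⟨E, A, hE, hA, h⟩
    refine ⟨E, A, hE, hA, ?_⟩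
    filter_upwards [h] with a h ha ε hε
    filter_upwards [h ha ε hε, hev] with T h1 h2
    rwa [G.D_eq h2, pr_pos (by linarith)]

theorem crit (hRH : RiemannHypothesis) (l : Filter ℝ) (hl : l ≤ atTop) {ℓ₁ ℓ₂ s₁ s₂ : ℝ}
    (h1 : 0 < ℓ₁) (h2 : 0 < ℓ₂) (hirr : Irrational (ℓ₁ / ℓ₂)) (hs1 : s₁ = 1 ∨ s₁ = -1)
    (hs2 : s₂ = 1 ∨ s₂ = -1) :
    Montgomery l ↔ OneSidedC l ℓ₁ s₁ ∧ OneSidedC l ℓ₂ s₂ := by
  rw [One_iff' hl, One_iff' hl, Mont_iff hl]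
  constructor
  · intro h
    have key : ∀ ℓ s : ℝ, 0 < ℓ → (s = 1 ∨ s = -1) → OneC l ℓ s := by
      intro ℓ s hℓ hs
      refine ⟨_, 1, carl_ex one_pos one_pos, one_pos, Eventually.of_forall fun a ha ε hε => ?_⟩
      have h1 := h a (a + ℓ) (by linarith)
      rw [pr_pos (by linarith)] at h1
      filter_upwards [(Metric.tendsto_nhds.1 h1) ε hε] with T hT
      rw [Real.dist_eq] at hT
      have h2 := abs_lt.1 hT
      have h3 := Real.exp_pos (-(1 * a / Real.log (a + 2)))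
      rcases hs with rfl | rfl <;> linarith [h2.1, h2.2]
    exact ⟨key ℓ₁ s₁ h1 hs1, key ℓ₂ s₂ h2 hs2⟩
  · rintro ⟨k1, k2⟩
    exact fun α β hαβ => Nr_all hl (rigid_C hRH hl h1 h2 hirr hs1 hs2 k1 k2) hαβ

theorem one (hRH : RiemannHypothesis) (l : Filter ℝ) (hl : l ≤ atTop) {ℓ s : ℝ} (hℓ : 0 < ℓ)
    (hs : s = 1 ∨ s = -1) (h : OneSidedC l ℓ s) {α β : ℝ} (hαβ : α < β) {ε : ℝ} (hε : 0 < ε) :
    ∀ᶠ T in l, |D T α β| ≤ Real.pi ^ 2 / 9 * ℓ ^ 3 + ε := by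
  rw [One_iff' hl] at h
  have hev : ∀ᶠ T in l, 1 < T := hl (eventually_gt_atTop 1)
  filter_upwards [one_C hRH hl hℓ hs h hαβ hε, hev] with T h1 h2
  rw [G.D_eq h2]
  exact h1

/-- the conjecture bounds the discrepancies -/
lemma mont_small {l : Filter ℝ} (hl : l ≤ atTop) (h : Montgomery l) {α β : ℝ} (hαβ : α < β)
    {ε : ℝ} (hε : 0 < ε) : ∀ᶠ T in l, |D T α β| ≤ ε := by
  rw [Mont_iff hl] at h
  have hev : ∀ᶠ T in l, 1 < T := hl (eventually_gt_atTop 1)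
  filter_upwards [(Metric.tendsto_nhds.1 (h α β hαβ)) ε hε, hev] with T hT h2
  rw [G.D_eq h2]
  rw [Real.dist_eq] at hT
  exact hT.le

theorem cert_two (hRH : RiemannHypothesis) {ℓ₁ ℓ₂ s₁ s₂ A : ℝ} (h1 : 0 < ℓ₁) (h2 : 0 < ℓ₂)
    (hirr : Irrational (ℓ₁ / ℓ₂)) (hs1 : s₁ = 1 ∨ s₁ = -1) (hs2 : s₂ = 1 ∨ s₂ = -1)
    (hA : 0 < A) {E₁ E₂ : ℝ → ℝ} (hE1 : Carl E₁) (hE2 : Carl E₂) {α β : ℝ} (hαβ : α < β)
    {ε : ℝ} (hε : 0 < ε) :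
    ∃ (S : Finset ℝ) (δ T₀ : ℝ), (∀ a ∈ S, A ≤ a) ∧ 0 < δ ∧ ∀ T, T₀ ≤ T →
      (∀ a ∈ S, s₁ * D T a (a + ℓ₁) ≤ E₁ a + δ ∧ s₂ * D T a (a + ℓ₂) ≤ E₂ a + δ) →
      |D T α β| ≤ ε := by
  refine cert (Hy := fun a δ T => s₁ * D T a (a + ℓ₁) ≤ E₁ a + δ ∧
    s₂ * D T a (a + ℓ₂) ≤ E₂ a + δ) (concl := fun T => |D T α β| ≤ ε)
    (fun a δ δ' T hδ h => ⟨by linarith [h.1], by linarith [h.2]⟩) fun l hl h => ?_
  refine mont_small hl ((crit hRH l hl h1 h2 hirr hs1 hs2).2 ⟨?_, ?_⟩) hαβ hε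
  · exact ⟨E₁, A, hE1, hA, Eventually.of_forall fun a ha ε hε => (h a ha ε hε).mono
      fun T hT => hT.1⟩
  · exact ⟨E₂, A, hE2, hA, Eventually.of_forall fun a ha ε hε => (h a ha ε hε).mono
      fun T hT => hT.2⟩

theorem cert_one (hRH : RiemannHypothesis) {ℓ s A : ℝ} (hℓ : 0 < ℓ) (hs : s = 1 ∨ s = -1)
    (hA : 0 < A) {E : ℝ → ℝ} (hE : Carl E) {α β : ℝ} (hαβ : α < β) {ε : ℝ} (hε : 0 < ε) :
    ∃ (S : Finset ℝ) (δ T₀ : ℝ), (∀ a ∈ S, A ≤ a) ∧ 0 < δ ∧ ∀ T, T₀ ≤ T →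
      (∀ a ∈ S, s * D T a (a + ℓ) ≤ E a + δ) → |D T α β| ≤ Real.pi ^ 2 / 9 * ℓ ^ 3 + ε := by
  refine cert (Hy := fun a δ T => s * D T a (a + ℓ) ≤ E a + δ)
    (concl := fun T => |D T α β| ≤ Real.pi ^ 2 / 9 * ℓ ^ 3 + ε)
    (fun a δ δ' T hδ h => by linarith [h]) fun l hl h => ?_
  exact one hRH l hl hℓ hs ⟨E, A, hE, hA, Eventually.of_forall fun a ha ε hε => h a ha ε hε⟩
    hαβ hε

end Pool.Agent.U507.FW
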