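import Mathlib

/-! The class of errors: moments satisfying Carleman's condition. -/

set_option autoImplicit false

open MeasureTheory Filter Topology

namespace Pool.Agent.U507.FW

/-- nonnegative measurable functions on `(0, ∞)` all of whose moments `m k = ∫ x^k E(x) dx` are
finite and satisfy Carleman's condition `∑_{k ≥ 1} (m (2k))^(-1/(2k)) = ∞` -/
def Carl (E : ℝ → ℝ) : Prop :=
  Measurable E ∧ (∀ x, 0 ≤ E x) ∧ (∀ k : ℕ, IntegrableOn (fun x => x ^ k * E x) (Set.Ioi 0)) ∧
    ¬ Summable fun k : ℕ =>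
      (∫ x in Set.Ioi (0 : ℝ), x ^ (2 * (k + 1)) * E x) ^ (-((2 * ((k : ℝ) + 1))⁻¹))

end Pool.Agent.U507.FW
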